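import Pool.Agent.HS37.WT.Mac

/-!
# Base change of Hecke characters
-/

set_option autoImplicit false
set_option linter.unusedSectionVars false

open NumberField IsDedekindDomain Filter Topology

namespace Pool.Agent.HS37.WT

open Pool.Agent.H341R2 Pool.Agent.W540.BE Pool.Agent.HS37.HK
open Pool.Agent.Y773 (TPos)
open Pool.Agent.Y773.G (cj cj_cj cj_apply prod_emb)

section
variable {F E : Type} [Field F] [NumberField F] [Field E] [NumberField E] [Algebra F E]

theorem nrm_coe (x : 𝓞 E) :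
    ((Algebra.intNorm (𝓞 F) (𝓞 E) x : 𝓞 F) : F) = Algebra.norm F (x : E) :=
  Algebra.algebraMap_intNorm (K := F) (L := E) x

theorem nrm_ne {x : 𝓞 E} (hx : x ≠ 0) : Algebra.intNorm (𝓞 F) (𝓞 E) x ≠ 0 := by
  intro h
  have h1 := nrm_coe (F := F) x
  rw [h] at h1
  have h2 : Algebra.norm F (x : E) = 0 := by
    rw [← h1]
    exact map_zero (algebraMap (𝓞 F) F)
  rw [Algebra.norm_eq_zero_iff] at h2
  exact hx (by exact_mod_cast h2)

open Classical in
/-- the norm as a product over embeddings -/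
theorem norm_emb (φ : F →+* ℂ) (x : E) : φ (Algebra.norm F x) =
    ∏ σ ∈ Finset.univ.filter (fun σ : E →+* ℂ => σ.comp (algebraMap F E) = φ), σ x := by
  let _ := φ.toAlgebra
  have h1 := Algebra.norm_eq_prod_embeddings F ℂ x
  have h2 : algebraMap F ℂ (Algebra.norm F x) = φ (Algebra.norm F x) := rfl
  rw [← h2, h1]
  refine Finset.prod_bij (fun σ _ => σ.toRingHom) (fun σ _ => ?_) (fun σ _ τ _ h => ?_)
    (fun σ hσ => ?_) (fun σ _ => rfl)
  · rw [Finset.mem_filter]
    exact ⟨Finset.mem_univ _, RingHom.ext fun r => σ.commutes r⟩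
  · exact AlgHom.ext fun r => DFunLike.congr_fun h r
  · rw [Finset.mem_filter] at hσ
    exact ⟨AlgHom.mk σ fun r => DFunLike.congr_fun hσ.2 r, Finset.mem_univ _, rfl⟩

/-- the base change of a type -/
def bk (k : (F →+* ℂ) → ℤ) (σ : E →+* ℂ) : ℤ := k (σ.comp (algebraMap F E))

theorem phz_norm (k : (F →+* ℂ) → ℤ) (x : E) :
    phz k (Algebra.norm F x) = phz (bk k) x := by
  classical
  unfold phz
  rw [← Finset.prod_fiberwise Finset.univ (fun σ : E →+* ℂ => σ.comp (algebraMap F E))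
    (fun σ => (σ x / (‖σ x‖ : ℂ)) ^ bk k σ)]
  refine Finset.prod_congr rfl fun φ _ => ?_
  rw [norm_emb φ x, norm_prod]
  push_cast
  rw [← Finset.prod_div_distrib, ← Finset.prod_zpow]
  refine Finset.prod_congr rfl fun σ hσ => ?_
  rw [Finset.mem_filter] at hσ
  unfold bk
  rw [hσ.2]

/-- the norm of a totally positive integer is totally positive -/
theorem tpos_norm {x : 𝓞 E} (hx : x ≠ 0) (hp : TPos E x) :
    TPos F (Algebra.intNorm (𝓞 F) (𝓞 E) x) := by
  classical
  intro σ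
  rw [nrm_coe]
  set φ : F →+* ℂ := Complex.ofRealHom.comp σ with hφ
  have hxE : (x : E) ≠ 0 := by exact_mod_cast hx
  have h1 := norm_emb φ (x : E)
  rw [Finset.prod_filter, prod_emb] at h1
  have hcj : cj φ = φ := by
    ext y
    rw [cj_apply, hφ]
    simp
  -- the factors are positive
  have h2 : ∀ w : InfinitePlace E, ∃ r : ℝ, 0 < r ∧
      (if w.IsReal then (if w.embedding.comp (algebraMap F E) = φ then w.embedding (x : E) else 1)
        else (if w.embedding.comp (algebraMap F E) = φ then w.embedding (x : E) else 1) *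
          (if (cj w.embedding).comp (algebraMap F E) = φ then cj w.embedding (x : E) else 1)) =
        (r : ℂ) := by
    intro w
    by_cases hw : w.IsReal
    · rw [if_pos hw]
      split_ifs with h
      · refine ⟨InfinitePlace.embedding_of_isReal hw (x : E), hp _, ?_⟩
        exact (InfinitePlace.embedding_of_isReal_apply hw _).symm
      · exact ⟨1, one_pos, by simp⟩
    · rw [if_neg hw]
      have hiff : (cj w.embedding).comp (algebraMap F E) = φ ↔
          w.embedding.comp (algebraMap F E) = φ := by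
        have e1 : ∀ τ : E →+* ℂ, (cj τ).comp (algebraMap F E) = cj (τ.comp (algebraMap F E)) := by
          intro τ
          ext y
          rfl
        rw [e1]
        constructor
        · intro h
          rw [← cj_cj (w.embedding.comp (algebraMap F E)), h, hcj]
        · intro h
          rw [h, hcj]
      by_cases h : w.embedding.comp (algebraMap F E) = φ
      · rw [if_pos h, if_pos (hiff.2 h)]
        refine ⟨Complex.normSq (w.embedding (x : E)), Complex.normSq_pos.2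
          ((map_ne_zero _).2 hxE), ?_⟩
        rw [cj_apply, Complex.mul_conj]
      · rw [if_neg h, if_neg fun h' => h (hiff.1 h')]
        exact ⟨1, one_pos, by simp⟩
  choose r hr0 hr using h2
  rw [Finset.prod_congr rfl fun w _ => hr w, ← Complex.ofReal_prod] at h1
  have h3 : ((σ (Algebra.norm F (x : E)) : ℝ) : ℂ) = ((∏ w : InfinitePlace E, r w : ℝ) : ℂ) := h1
  have h4 := Complex.ofReal_injective h3
  rw [h4]
  exact Finset.prod_pos fun w _ => hr0 w

/-- norms of integers congruent to `1` -/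
theorem norm_cong {n : ℕ} (hn : n ≠ 0) {x : 𝓞 E} (hx : x - 1 ∈ Ideal.span {(n : 𝓞 E)}) :
    ∃ y : 𝓞 F, Algebra.intNorm (𝓞 F) (𝓞 E) x = 1 + n * y := by
  classical
  rw [Ideal.mem_span_singleton] at hx
  obtain ⟨a, ha⟩ := hx
  have hxa : (x : E) = 1 + n * (a : E) := by
    have h1 : x = 1 + n * a := by linear_combination ha
    rw [h1]
    simp
  set Ω := AlgebraicClosure E
  have h1 := Algebra.norm_eq_prod_embeddings F Ω (x : E)
  -- the product
  have h2 : ∀ s : Finset (E →ₐ[F] Ω), ∃ Y : Ω, IsIntegral ℤ Y ∧ ∏ σ ∈ s, σ (x : E) = 1 + n * Y := by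
    intro s
    induction s using Finset.induction_on with
    | empty => exact ⟨0, isIntegral_zero, by simp⟩
    | insert τ s hτ ih =>
      obtain ⟨Y, hY, hYe⟩ := ih
      have hτa : IsIntegral ℤ (τ (a : E)) := by
        have h0 : IsIntegral ℤ (a : E) := NumberField.RingOfIntegers.isIntegral_coe a
        exact map_isIntegral_int τ.toRingHom h0
      refine ⟨τ (a : E) + Y + n * (τ (a : E) * Y), ?_, ?_⟩
      · refine (hτa.add hY).add (IsIntegral.mul ?_ (hτa.mul hY))
        have h0 : IsIntegral ℤ (algebraMap ℤ Ω (n : ℤ)) := isIntegral_algebraMap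
        rw [map_natCast] at h0
        exact h0
      · rw [Finset.prod_insert hτ, hYe, hxa, map_add, map_one, map_mul, map_natCast]
        ring
  obtain ⟨Y, hY, hYe⟩ := h2 Finset.univ
  rw [hYe] at h1
  have hnF : (n : F) ≠ 0 := by exact_mod_cast hn
  have hnΩ : (n : Ω) ≠ 0 := by exact_mod_cast hn
  set y0 : F := (Algebra.norm F (x : E) - 1) / n with hy0
  have h3 : algebraMap F Ω y0 = Y := by
    rw [hy0, map_div₀, map_sub, h1, map_one, map_natCast, add_sub_cancel_left,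
      mul_div_cancel_left₀ _ hnΩ]
  have h4 : IsIntegral ℤ y0 := by
    rw [← h3] at hY
    exact (isIntegral_algebraMap_iff (algebraMap F Ω).injective).1 hY
  obtain ⟨y, hy⟩ : ∃ y : 𝓞 F, (y : F) = y0 := ⟨⟨y0, h4⟩, rfl⟩
  refine ⟨y, ?_⟩
  apply RingOfIntegers.ext
  rw [nrm_coe]
  have h5 : ((1 + (n : 𝓞 F) * y : 𝓞 F) : F) = 1 + n * y0 := by
    rw [← hy]
    simp
  rw [h5, hy0, mul_div_cancel₀ _ hnF, add_sub_cancel]

/-- the base change of a multiplicative function -/
noncomputable def bcf (ψ : Ideal (𝓞 F) →*₀ ℂ) : Ideal (𝓞 E) →*₀ ℂ :=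
  ψ.comp (Ideal.relNorm (𝓞 F))

theorem bcf_apply (ψ : Ideal (𝓞 F) →*₀ ℂ) (𝔞 : Ideal (𝓞 E)) :
    bcf ψ 𝔞 = ψ (Ideal.relNorm (𝓞 F) 𝔞) := rfl

theorem HC.bc {𝔪 : Ideal (𝓞 F)} {k : (F →+* ℂ) → ℤ} {ψ : Ideal (𝓞 F) →*₀ ℂ} (h : HC 𝔪 k ψ) :
    ∃ (𝔫 : Ideal (𝓞 E)) (h𝔫 : 𝔫 ≠ ⊤), HC 𝔫 (bk k) (mulc (triv 𝔫 h𝔫) (bcf ψ)) := by
  set n : ℕ := 2 * Ideal.absNorm 𝔪 with hn
  have hn0 : n ≠ 0 := by
    have : Ideal.absNorm 𝔪 ≠ 0 := fun h0 => h.ne_bot (Ideal.absNorm_eq_zero_iff.1 h0)
    omega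
  have hnm : (n : 𝓞 F) ∈ 𝔪 := by
    rw [hn]
    push_cast
    exact 𝔪.mul_mem_left _ (Ideal.absNorm_mem 𝔪)
  set 𝔫 : Ideal (𝓞 E) := Ideal.span {(n : 𝓞 E)} with h𝔫
  have hb : 𝔫 ≠ ⊥ := by
    rw [h𝔫, Ne, Ideal.span_singleton_eq_bot]
    exact_mod_cast hn0
  have ht : 𝔫 ≠ ⊤ := by
    intro h1
    rw [h𝔫, Ideal.span_singleton_eq_top] at h1
    have h2 : Ideal.absNorm (Ideal.span {(n : 𝓞 E)}) = 1 := by
      rw [Ideal.absNorm_eq_one_iff, Ideal.span_singleton_eq_top]
      exact h1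
    rw [Ideal.absNorm_span_singleton] at h2
    have h3 : (Algebra.norm ℤ ((n : 𝓞 E))) = (n : ℤ) ^ Module.finrank ℤ (𝓞 E) := by
      have := Algebra.norm_algebraMap_of_basis (RingOfIntegers.basis E) (n : ℤ)
      rw [← Module.finrank_eq_card_basis (RingOfIntegers.basis E)] at this
      simpa using this
    rw [h3, Int.natAbs_pow, Int.natAbs_natCast] at h2
    have h4 : 0 < Module.finrank ℤ (𝓞 E) := Module.finrank_pos
    have h5 : n = 1 := by
      rcases Nat.eq_one_of_mul_eq_one_right (m := n) (n := n ^ (Module.finrank ℤ (𝓞 E) - 1)) (by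
        rw [← pow_succ', Nat.sub_add_cancel h4]
        exact h2) with h6
      exact h6
    omega
  have hN : ∀ x : 𝓞 E, x - 1 ∈ 𝔫 → Algebra.intNorm (𝓞 F) (𝓞 E) x - 1 ∈ 𝔪 := by
    intro x hx
    obtain ⟨y, hy⟩ := norm_cong (F := F) hn0 hx
    rw [hy, add_sub_cancel_left]
    exact 𝔪.mul_mem_right _ hnm
  refine ⟨𝔫, ht, hb, fun 𝔞 ha => ?_, fun x hx hx1 hp => ?_⟩
  · constructor
    · intro h1
      rw [mulc_apply] at h1
      by_contra hcon
      rw [triv_zero ht hcon, zero_mul] at h1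
      exact h1 rfl
    · intro h1
      rw [mulc_apply, triv_one ht h1, one_mul, bcf_apply, h.supp _ (by
        rwa [Ne, Ideal.relNorm_eq_bot_iff])]
      rw [Ideal.isCoprime_iff_exists] at h1 ⊢
      obtain ⟨a, ha', b, hb', hab⟩ := h1
      have h2 : a - 1 ∈ 𝔫 := by
        have : a - 1 = -b := by linear_combination hab
        rw [this]
        exact neg_mem hb'
      have h3 := hN a h2
      refine ⟨Algebra.intNorm (𝓞 F) (𝓞 E) a, ?_, -(Algebra.intNorm (𝓞 F) (𝓞 E) a - 1), neg_mem h3,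
        by ring⟩
      rw [← Ideal.spanNorm_eq]
      exact Ideal.intNorm_mem_spanNorm (𝓞 F) ha'
  · rw [mulc_apply, triv_one ht (coprime_of_sub hx1), one_mul, bcf_apply, Ideal.relNorm_singleton,
      h.ray _ (nrm_ne hx) (hN x hx1) (tpos_norm hx hp), nrm_coe, phz_norm]

/-- base change -/
theorem Hk.bc {χ : HeightOneSpectrum (𝓞 F) → ℂ} (h : Hk χ) :
    ∃ χ' : HeightOneSpectrum (𝓞 E) → ℂ, Hk χ' ∧
      ∀ᶠ z : HeightOneSpectrum (𝓞 E) in cofinite, D1 F z → χ' z = χ (dn F z) := by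
  obtain ⟨-, 𝔪, k, ψ, τ, h1, h2, h3⟩ := h
  obtain ⟨𝔫, h𝔫, h4⟩ := HC.bc (E := E) h1
  obtain ⟨χ', h5, h6⟩ := Hk.of_HC h4 τ
  refine ⟨χ', h5, ?_⟩
  have h7 : ∀ᶠ z : HeightOneSpectrum (𝓞 E) in cofinite, χ (dn F z) = val ψ τ (dn F z) := by
    have h8 : Tendsto (dn F : HeightOneSpectrum (𝓞 E) → HeightOneSpectrum (𝓞 F)) cofinite cofinite := by
      refine Filter.Tendsto.cofinite_of_finite_preimage_singleton fun v => ?_
      exact (card_above (F := E) v).1
    exact h8.eventually h3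
  filter_upwards [h6, h7, ev_coprime h4.ne_bot] with z k1 k2 k3 k4
  rw [k1, k2]
  unfold val
  have k5 : nm z = nm (dn F z) := k4
  rw [mulc_apply, triv_one h𝔫 k3, one_mul, bcf_apply, k5]
  congr 2
  have h8 := z.isMaximal
  have h9 := (dn F z).isMaximal
  rw [Ideal.relNorm_eq_pow_of_isMaximal z.asIdeal (dn F z).asIdeal, (D1_iff z).1 k4, pow_one]

end

end Pool.Agent.HS37.WT
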