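import Pool.Agent.HS37.WT.Size

/-!
# Bessel's inequality with a Gram matrix
-/

set_option autoImplicit false
set_option linter.unusedSectionVars false

open NumberField IsDedekindDomain Filter Topology ComplexConjugate Polynomial

namespace Pool.Agent.HS37.WT

open Pool.Agent.H341R2 Pool.Agent.W540.BE Pool.Agent.HS37.HK

section
variable {P : Type*} {N : P → ℕ} {𝒰 : Ultrafilter ℝ}

open Classical in
/-- the indicator function -/
noncomputable def ind (A : Set P) (p : P) : ℝ := if p ∈ A then 1 else 0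

theorem ind_bd (A : Set P) : Bd (ind A) := by
  classical
  refine ⟨1, fun p => ?_⟩
  unfold ind
  split_ifs <;> norm_num

theorem ind_nonneg (A : Set P) (p : P) : 0 ≤ ind A p := by
  classical
  unfold ind
  split_ifs <;> norm_num

/-- **Bessel's inequality with a Gram matrix** -/
theorem bessel_gram (hS : Sys N 𝒰) {κ : Type*} [Fintype κ] {T : P → ℂ} {s : ℝ} (hs : 0 ≤ s)
    (hT : ∀ p, ‖T p‖ ≤ s) {f : κ → P → ℂ} (hf : ∀ k, BdC (f k)) {A : Set P}
    (hA : ∀ k p, p ∉ A → f k p = 0) {d δ : ℝ} (hd : Av N 𝒰 (ind A) d) (hdδ : d ≤ δ)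
    {G : κ → κ → ℝ} (hG : ∀ k l, Av N 𝒰 (fun p => (f k p * conj (f l p)).re) (G k l)) {x : κ → ℝ}
    (hx : ∀ k, Av N 𝒰 (fun p => (T p * f k p).re) (x k)) (c : κ → ℝ) :
    0 ≤ ∑ k, ∑ l, c k * c l * G k l ∧
      (∑ k, c k * x k) ^ 2 ≤ δ * s ^ 2 * ∑ k, ∑ l, c k * c l * G k l := by
  classical
  set g : P → ℂ := fun p => ∑ k, (c k : ℂ) * f k p with hg
  set Q : ℝ := ∑ k, ∑ l, c k * c l * G k l with hQ
  set X : ℝ := ∑ k, c k * x k with hX
  have hgb : BdC g := BdC.sum _ fun k _ => (BdC.const _).mul (hf k)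
  have hTb : BdC T := ⟨s, hT⟩
  have hgsq : Av N 𝒰 (fun p => ‖g p‖ ^ 2) Q := by
    have h1 : ∀ k ∈ (Finset.univ : Finset κ), Av N 𝒰 (fun p => ∑ l, (c k * c l) *
        (f k p * conj (f l p)).re) (∑ l, c k * c l * G k l) := by
      intro k _
      exact Av.sum hS _ (fun l _ => ((hf k).mul (hf l).conj).re.const_mul _)
        fun l _ => (hG k l).const_mul _
    refine (Av.sum hS _ (fun k _ => Bd.sum _ fun l _ =>
      ((hf k).mul (hf l).conj).re.const_mul _) h1).congr (fun p => ?_) rfl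
    rw [hg, norm_sq_sum]
  have hlin : Av N 𝒰 (fun p => (T p * g p).re) X := by
    refine (Av.sum hS Finset.univ (fun k _ => ((hTb.mul (hf k)).re.const_mul (c k)))
      fun k _ => (hx k).const_mul (c k)).congr (fun p => ?_) rfl
    rw [hg]
    simp only
    rw [Finset.mul_sum, Complex.re_sum]
    refine Finset.sum_congr rfl fun k _ => ?_
    rw [← Complex.re_ofReal_mul]
    congr 1
    ring
  have hgn : Bd fun p => ‖g p‖ ^ 2 := by
    obtain ⟨B, hB⟩ := hgb
    refine ⟨B ^ 2, fun p => ?_⟩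
    rw [abs_of_nonneg (sq_nonneg _)]
    exact pow_le_pow_left₀ (norm_nonneg _) (hB p) 2
  have hQ0 : 0 ≤ Q := Av.nonneg hS hgsq fun p => sq_nonneg _
  have hg0 : ∀ p, p ∉ A → g p = 0 := by
    intro p hp
    rw [hg]
    simp only
    exact Finset.sum_eq_zero fun k _ => by rw [hA k p hp, mul_zero]
  refine ⟨hQ0, ?_⟩
  have key : ∀ t : ℝ, 0 ≤ (s ^ 2 * d) * (t * t) + (-(2 * X)) * t + Q := by
    intro t
    have h1 := Av.mono hS ((hTb.mul hgb).re.const_mul (2 * t))
      (((ind_bd A).const_mul (t ^ 2 * s ^ 2)).add hgn) (hlin.const_mul (2 * t))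
      (Av.add hS ((ind_bd A).const_mul (t ^ 2 * s ^ 2)) hgn (hd.const_mul (t ^ 2 * s ^ 2)) hgsq)
      fun p => by
        by_cases hp : p ∈ A
        · have h2 : ind A p = 1 := if_pos hp
          rw [h2, mul_one]
          have h3 : |(T p * g p).re| ≤ s * ‖g p‖ := by
            refine (Complex.abs_re_le_norm _).trans ?_
            rw [norm_mul]
            exact mul_le_mul_of_nonneg_right (hT p) (norm_nonneg _)
          have h4 : 2 * t * (T p * g p).re ≤ 2 * |t| * (s * ‖g p‖) := by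
            calc 2 * t * (T p * g p).re ≤ |2 * t * (T p * g p).re| := le_abs_self _
              _ = 2 * |t| * |(T p * g p).re| := by rw [abs_mul, abs_mul, abs_two]
              _ ≤ _ := mul_le_mul_of_nonneg_left h3 (by positivity)
          have h5 : 0 ≤ (|t| * s - ‖g p‖) ^ 2 := sq_nonneg _
          have h6 : |t| ^ 2 = t ^ 2 := sq_abs t
          nlinarith
        · have h2 : ind A p = 0 := if_neg hp
          rw [h2, hg0 p hp]
          simp
    linarith
  have h1 := discrim_le_zero key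
  unfold discrim at h1
  have h2 : X ^ 2 ≤ d * s ^ 2 * Q := by nlinarith
  exact h2.trans (mul_le_mul_of_nonneg_right (mul_le_mul_of_nonneg_right hdδ (sq_nonneg s)) hQ0)

/-- orthogonal systems -/
theorem diag_ineq {κ : Type*} [Fintype κ] {x : κ → ℝ} {G : κ → κ → ℝ} {b : ℝ}
    (h : ∀ c : κ → ℝ, (∑ k, c k * x k) ^ 2 ≤ b * ∑ k, ∑ l, c k * c l * G k l)
    (h0 : ∀ k, 0 ≤ G k k) (hG : ∀ k l, k ≠ l → G k l = 0) (hb : 0 ≤ b) :
    ∑ k, x k ^ 2 / G k k ≤ b := by
  classical
  set X := ∑ k, x k ^ 2 / G k k with hX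
  have hX0 : 0 ≤ X := Finset.sum_nonneg fun k _ => div_nonneg (sq_nonneg _) (h0 k)
  have h1 := h fun k => x k / G k k
  have h2 : ∑ k, x k / G k k * x k = X := Finset.sum_congr rfl fun k _ => by ring
  have h3 : ∑ k, ∑ l, x k / G k k * (x l / G l l) * G k l = X := by
    refine Finset.sum_congr rfl fun k _ => ?_
    rw [Finset.sum_eq_single k]
    · by_cases hk : G k k = 0
      · rw [hk]; simp
      · field_simp
    · intro l _ hl
      rw [hG k l hl.symm, mul_zero]
    · intro hk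
      exact absurd (Finset.mem_univ k) hk
  rw [h2, h3] at h1
  rcases hX0.eq_or_lt with h4 | h4
  · rw [← h4]; exact hb
  · rw [pow_two] at h1
    exact le_of_mul_le_mul_right h1 h4

end

end Pool.Agent.HS37.WT
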