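import Pool.Agent.HS37.WT.Gal

/-!
# The exceptional twists of bounded degree
-/

set_option autoImplicit false
set_option linter.unusedSectionVars false

open NumberField IsDedekindDomain Filter Topology ComplexConjugate Polynomial

namespace Pool.Agent.HS37.WT

open Pool.Agent.H341R2 Pool.Agent.W540.BE Pool.Agent.HS37.HK
open Pool.Agent.HS37.HT (LFun IsHecke isHecke_hk ev_of_ultra exists_U)

section
variable {K F F' : Type} [Field K] [NumberField K] [Field F] [NumberField F] [Field F']
  [NumberField F'] [Algebra K F] [Algebra K F']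

theorem common_symm {χ : HeightOneSpectrum (𝓞 F) → ℂ} {χ' : HeightOneSpectrum (𝓞 F') → ℂ}
    (h : IsHecke χ) (h' : IsHecke χ') : common K χ χ' = common K χ' χ := by
  obtain ⟨χ₁, k1, e1⟩ := isHecke_hk h
  obtain ⟨χ₂, k2, e2⟩ := isHecke_hk h'
  rw [← common_congr (K := K) e1 e2, ← common_congr (K := K) e2 e1]
  obtain ⟨𝒰, hU⟩ := exists_U
  have h1 := (gram (K := K) hU k1 k2).conj
  have h2 := gram (K := K) hU k2 k1
  have h3 : AvC nm 𝒰 (fun v : HeightOneSpectrum (𝓞 K) => S χ₂ v * conj (S χ₁ v))
      (conj ((common K χ₁ χ₂ : ℕ) : ℂ)) := h1.congr (fun v => by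
    rw [map_mul, Complex.conj_conj, mul_comm]) rfl
  have h4 := h3.unique h2
  rw [Complex.conj_natCast] at h4
  exact_mod_cast h4

end

section
variable {K : Type} [Field K] [NumberField K]

/-- the exceptional twists have a self-intertwining number different from zero -/
theorem common_pos {F : Type} [Field F] [NumberField F] [Algebra K F] (H : Motive K)
    {χ : HeightOneSpectrum (𝓞 F) → ℂ} (hχ : IsHecke χ) {m : ℤ} (hm : HasOrder H χ m)
    (hm0 : m ≠ 0) : 0 < common K χ χ := by
  have h1 := (orders (κ := Unit) (F := fun _ => F) (χ := fun _ => χ) H (fun _ => hχ)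
    (dens_one _) (m := fun _ => m) fun _ => hm).1 fun _ => 1
  simp only [Finset.univ_unique, Finset.sum_singleton, one_mul] at h1
  rcases Nat.eq_zero_or_pos (common K χ χ) with h2 | h2
  · rw [h2] at h1
    have h3 : (m : ℝ) ^ 2 ≤ 0 := by simpa using h1
    have h4 : (m : ℝ) ≠ 0 := by exact_mod_cast hm0
    have h5 : (0 : ℝ) < (m : ℝ) ^ 2 := by positivity
    linarith
  · exact h2

theorem fam_bound (H : Motive K) {D n : ℕ} (p : Fin n → Twist K D)
    (hp : ∀ k, Exceptional H (p k))
    (hd : ∀ k l, k ≠ l → common K (p k).χ (p l).χ = 0) : n ≤ D * H.rank ^ 2 := by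
  choose m hm0 hm using hp
  have h1 := (orders H (F := fun k => (p k).F) (χ := fun k => (p k).χ) (fun k => (p k).hecke)
    (dens_one _) (m := m) hm).2 hd
  rw [one_mul] at h1
  have h2 : ∀ k, (1 : ℝ) / D ≤ (m k : ℝ) ^ 2 / common K (p k).χ (p k).χ := by
    intro k
    have h3 := common_pos H (p k).hecke (hm k) (hm0 k)
    have h4 : common K (p k).χ (p k).χ ≤ D := (common_le _ _).trans (p k).deg
    have h5 : (1 : ℝ) ≤ (m k : ℝ) ^ 2 := by
      have : 0 < (m k) ^ 2 := by
        have := hm0 k
        positivity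
      exact_mod_cast (by omega : 1 ≤ (m k) ^ 2)
    have h6 : (0 : ℝ) < common K (p k).χ (p k).χ := by exact_mod_cast h3
    have h7 : (common K (p k).χ (p k).χ : ℝ) ≤ D := by exact_mod_cast h4
    exact div_le_div₀ (by positivity) h5 h6 h7
  rcases Nat.eq_zero_or_pos n with h0 | h0
  · rw [h0]; exact Nat.zero_le _
  · have hD : 0 < D := by
      have h3 := common_pos H (p ⟨0, h0⟩).hecke (hm _) (hm0 _)
      have h4 : common K (p ⟨0, h0⟩).χ (p ⟨0, h0⟩).χ ≤ D := (common_le _ _).trans (p _).deg
      omega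
    have h3 := (Finset.sum_le_sum fun k (_ : k ∈ Finset.univ) => h2 k).trans h1
    rw [Finset.sum_const, Finset.card_univ, Fintype.card_fin, nsmul_eq_mul, mul_one_div,
      div_le_iff₀ (by exact_mod_cast hD)] at h3
    have h4 : (n : ℝ) ≤ ((D * H.rank ^ 2 : ℕ) : ℝ) := by
      push_cast
      linarith
    exact_mod_cast h4

/-- **finiteness** -/
theorem finiteness (H : Motive K) (D : ℕ) : ∃ (n : ℕ) (p : Fin n → Twist K D), n ≤ D * H.rank ^ 2 ∧
    (∀ k, Exceptional H (p k)) ∧ (∀ k l, k ≠ l → common K (p k).χ (p l).χ = 0) ∧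
    ∀ q : Twist K D, Exceptional H q → ∃ k, common K q.χ (p k).χ ≠ 0 := by
  classical
  set Fam : ℕ → Prop := fun n => ∃ p : Fin n → Twist K D, (∀ k, Exceptional H (p k)) ∧
    ∀ k l, k ≠ l → common K (p k).χ (p l).χ = 0 with hFam
  have h0 : Fam 0 := ⟨fun k => k.elim0, fun k => k.elim0, fun k => k.elim0⟩
  have hbound : ∀ n, Fam n → n ≤ D * H.rank ^ 2 := fun n ⟨p, h1, h2⟩ => fam_bound H p h1 h2
  obtain ⟨n, hn, hmax⟩ : ∃ n, Fam n ∧ ∀ n', Fam n' → n' ≤ n := by
    have hfin : {n | Fam n}.Finite :=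
      (Set.finite_Iic (D * H.rank ^ 2)).subset fun n hn => hbound n hn
    obtain ⟨n, hn, hmax⟩ := Set.exists_max_image _ id hfin ⟨0, h0⟩
    exact ⟨n, hn, fun n' hn' => hmax n' hn'⟩
  obtain ⟨p, h1, h2⟩ := hn
  refine ⟨n, p, hbound n ⟨p, h1, h2⟩, h1, h2, fun q hq => ?_⟩
  by_contra hcon
  push Not at hcon
  have h4 : Fam (n + 1) := by
    refine ⟨Fin.cons q p, fun k => ?_, fun k l hkl => ?_⟩
    · refine Fin.cases ?_ (fun k => ?_) k
      · exact hq
      · exact h1 k
    · induction k using Fin.cases with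
      | zero =>
        induction l using Fin.cases with
        | zero => exact absurd rfl hkl
        | succ l => exact hcon l
      | succ k =>
        induction l using Fin.cases with
        | zero =>
          change common K (p k).χ q.χ = 0
          rw [common_symm (p k).hecke q.hecke]
          exact hcon k
        | succ l => exact h2 k l fun h => hkl (by rw [h])
  have := hmax _ h4
  omega

end

end Pool.Agent.HS37.WT
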