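import Pool.Agent.HS37.WT.Tr

/-!
# The composites of two extensions
-/

set_option autoImplicit false
set_option linter.unusedSectionVars false

open NumberField IsDedekindDomain Filter Topology TensorProduct

namespace Pool.Agent.HS37.WT

section
variable {K F F' : Type} [Field K] [NumberField K] [Field F] [NumberField F] [Field F']
  [NumberField F'] [Algebra K F] [Algebra K F']

instance redT : IsReduced (F ⊗[K] F') := by
  have : Algebra.FormallyUnramified K F' := Algebra.FormallyUnramified.of_isSeparable K F'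
  exact Algebra.FormallyUnramified.isReduced_of_field F (F ⊗[K] F')

instance artT : IsArtinianRing (F ⊗[K] F') := IsArtinianRing.of_finite K (F ⊗[K] F')

instance finC : Finite (Composite K F F') := inferInstance

theorem clear1 (a : F) : ∃ (n : ℤ) (α : 𝓞 F), n ≠ 0 ∧ (α : F) = n * a := by
  obtain ⟨⟨x, ⟨s, hs⟩⟩, h⟩ := IsLocalization.surj (Algebra.algebraMapSubmonoid (𝓞 F) (nonZeroDivisors ℤ)) a
  obtain ⟨n, hn, rfl⟩ := hs
  refine ⟨n, x, nonZeroDivisors.ne_zero hn, ?_⟩
  simp only at h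
  change algebraMap (𝓞 F) F x = _
  rw [← h, mul_comm]
  congr 1

variable (K F F') in
/-- the integral tensor product -/
abbrev MM : Type := 𝓞 F ⊗[𝓞 K] 𝓞 F'

variable (K F F') in
noncomputable def iot0 : MM K F F' →ₐ[𝓞 K] F ⊗[𝓞 K] F' :=
    (Algebra.TensorProduct.map (IsScalarTower.toAlgHom (𝓞 K) (𝓞 F) F)
      (IsScalarTower.toAlgHom (𝓞 K) (𝓞 F') F'))

variable (K F F') in
noncomputable def iot : MM K F F' →+* F ⊗[K] F' :=
  (IsLocalization.algebraTensorEquiv (nonZeroDivisors (𝓞 K)) K F F').symm.toRingEquiv.toRingHom.comp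
    (iot0 K F F').toRingHom

theorem iot_tmul (a : 𝓞 F) (b : 𝓞 F') : iot K F F' (a ⊗ₜ b) = (a : F) ⊗ₜ[K] (b : F') := rfl

theorem iot0_inj : Function.Injective (iot0 K F F') := by
  have h1 : Function.Injective (algebraMap (𝓞 F) F) := FaithfulSMul.algebraMap_injective _ _
  have h2 : Function.Injective (algebraMap (𝓞 F') F') := FaithfulSMul.algebraMap_injective _ _
  exact TensorProduct.map_injective_of_flat_flat_of_isDomain
    (IsScalarTower.toAlgHom (𝓞 K) (𝓞 F) F).toLinearMap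
    (IsScalarTower.toAlgHom (𝓞 K) (𝓞 F') F').toLinearMap h1 h2

theorem iot_inj : Function.Injective (iot K F F') :=
  (IsLocalization.algebraTensorEquiv (nonZeroDivisors (𝓞 K)) K F F').symm.injective.comp iot0_inj

/-- clearing denominators -/
theorem clear2 (t : F ⊗[K] F') : ∃ (n : ℤ) (m : MM K F F'), n ≠ 0 ∧ iot K F F' m = n * t := by
  induction t using TensorProduct.induction_on with
  | zero => exact ⟨1, 0, one_ne_zero, by rw [map_zero, mul_zero]⟩
  | tmul a b =>
    obtain ⟨n, α, hn, hα⟩ := clear1 a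
    obtain ⟨n', β, hn', hβ⟩ := clear1 b
    refine ⟨n * n', α ⊗ₜ β, mul_ne_zero hn hn', ?_⟩
    rw [iot_tmul, hα, hβ]
    have h1 : ((n : F) * a) ⊗ₜ[K] ((n' : F') * b) =
        (((n : F) ⊗ₜ[K] (1 : F')) * ((1 : F) ⊗ₜ[K] (n' : F'))) * (a ⊗ₜ[K] b) := by
      rw [Algebra.TensorProduct.tmul_mul_tmul, Algebra.TensorProduct.tmul_mul_tmul]
      simp
    have h2 : (n : F) ⊗ₜ[K] (1 : F') = (n : F ⊗[K] F') :=
      map_intCast (Algebra.TensorProduct.includeLeft (R := K) (S := K) (A := F) (B := F')) n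
    have h3 : (1 : F) ⊗ₜ[K] (n' : F') = (n' : F ⊗[K] F') :=
      map_intCast (Algebra.TensorProduct.includeRight (R := K) (A := F) (B := F')) n'
    rw [h1, h2, h3]
    push_cast
    ring
  | add t t' h h' =>
    obtain ⟨n, m, hn, hm⟩ := h
    obtain ⟨n', m', hn', hm'⟩ := h'
    refine ⟨n * n', n' * m + n * m', mul_ne_zero hn hn', ?_⟩
    rw [map_add, map_mul, map_mul, hm, hm', map_intCast, map_intCast]
    push_cast
    ring

/-! ## the map to the composites -/

/-- the quotient map as a map to the field -/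
noncomputable def qm (𝔪 : Composite K F F') : F ⊗[K] F' →+* Fld 𝔪 := Ideal.Quotient.mk 𝔪.asIdeal

theorem lft_alg (𝔪 : Composite K F F') (r : K) :
    lft 𝔪 (algebraMap K F r) = algebraMap K (Fld 𝔪) r := by
  have h1 : Algebra.TensorProduct.includeLeft (R := K) (S := K) (A := F) (B := F')
    (algebraMap K F r) = algebraMap K (F ⊗[K] F') r := AlgHom.commutes _ r
  exact congrArg (qm 𝔪) h1

theorem rgt_alg (𝔪 : Composite K F F') (r : K) :
    rgt 𝔪 (algebraMap K F' r) = algebraMap K (Fld 𝔪) r := by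
  have h1 : Algebra.TensorProduct.includeRight (R := K) (A := F) (B := F')
    (algebraMap K F' r) = algebraMap K (F ⊗[K] F') r := AlgHom.commutes _ r
  exact congrArg (qm 𝔪) h1

/-- the embedding of the integers of `F` -/
noncomputable def lfo (𝔪 : Composite K F F') : 𝓞 F →ₐ[𝓞 K] 𝓞 (Fld 𝔪) where
  toRingHom := RingOfIntegers.mapRingHom (lft 𝔪)
  commutes' r := by
    apply RingOfIntegers.ext
    exact lft_alg 𝔪 (r : K)

/-- the embedding of the integers of `F'` -/
noncomputable def rgo (𝔪 : Composite K F F') : 𝓞 F' →ₐ[𝓞 K] 𝓞 (Fld 𝔪) where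
  toRingHom := RingOfIntegers.mapRingHom (rgt 𝔪)
  commutes' r := by
    apply RingOfIntegers.ext
    exact rgt_alg 𝔪 (r : K)

theorem lfo_coe (𝔪 : Composite K F F') (a : 𝓞 F) : ((lfo 𝔪 a : 𝓞 (Fld 𝔪)) : Fld 𝔪) =
    lft 𝔪 (a : F) := rfl

theorem rgo_coe (𝔪 : Composite K F F') (a : 𝓞 F') : ((rgo 𝔪 a : 𝓞 (Fld 𝔪)) : Fld 𝔪) =
    rgt 𝔪 (a : F') := rfl

/-- the product of the rings of integers of the composites -/
abbrev NN (K F F' : Type) [Field K] [NumberField K] [Field F] [NumberField F] [Field F']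
  [NumberField F'] [Algebra K F] [Algebra K F'] : Type := ∀ 𝔪 : Composite K F F', 𝓞 (Fld 𝔪)

noncomputable def ps1 (𝔪 : Composite K F F') : MM K F F' →ₐ[𝓞 K] 𝓞 (Fld 𝔪) :=
  Algebra.TensorProduct.productMap (lfo 𝔪) (rgo 𝔪)

theorem ps1_coe (𝔪 : Composite K F F') (m : MM K F F') :
    ((ps1 𝔪 m : 𝓞 (Fld 𝔪)) : Fld 𝔪) = qm 𝔪 (iot K F F' m) := by
  induction m using TensorProduct.induction_on with
  | zero => rw [map_zero, map_zero, map_zero]; rfl
  | tmul a b =>
    have h1 : ps1 𝔪 (a ⊗ₜ b) = lfo 𝔪 a * rgo 𝔪 b := Algebra.TensorProduct.productMap_apply_tmul _ _ _ _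
    rw [h1, iot_tmul]
    change ((lfo 𝔪 a : 𝓞 (Fld 𝔪)) : Fld 𝔪) * ((rgo 𝔪 b : 𝓞 (Fld 𝔪)) : Fld 𝔪) = _
    rw [lfo_coe, rgo_coe]
    have h2 : (a : F) ⊗ₜ[K] (b : F') = ((a : F) ⊗ₜ[K] (1 : F')) * ((1 : F) ⊗ₜ[K] (b : F')) := by
      rw [Algebra.TensorProduct.tmul_mul_tmul, one_mul, mul_one]
    rw [h2, map_mul]
    rfl
  | add m m' h h' =>
    rw [map_add, map_add, map_add, ← h, ← h']
    rfl

noncomputable def psi (K F F' : Type) [Field K] [NumberField K] [Field F] [NumberField F] [Field F']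
    [NumberField F'] [Algebra K F] [Algebra K F'] : MM K F F' →ₐ[𝓞 K] NN K F F' :=
  AlgHom.pi fun 𝔪 => ps1 𝔪

theorem psi_apply (m : MM K F F') (𝔪 : Composite K F F') : psi K F F' m 𝔪 = ps1 𝔪 m := rfl

theorem psi_inj : Function.Injective (psi K F F') := by
  rw [injective_iff_map_eq_zero]
  intro m hm
  apply iot_inj
  rw [map_zero]
  apply (IsArtinianRing.equivPi (F ⊗[K] F')).injective
  rw [map_zero]
  funext 𝔪
  have h1 := congrFun hm 𝔪
  rw [psi_apply] at h1
  have h2 := ps1_coe 𝔪 m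
  rw [h1] at h2
  exact h2.symm

/-- the cokernel is torsion -/
theorem psi_tors (n : NN K F F') : ∃ (c : ℤ) (m : MM K F F'), c ≠ 0 ∧ psi K F F' m = c • n := by
  set t : F ⊗[K] F' := (IsArtinianRing.equivPi (F ⊗[K] F')).symm fun 𝔪 => ((n 𝔪 : 𝓞 (Fld 𝔪)) : Fld 𝔪)
    with ht
  have ht1 : ∀ 𝔪, qm 𝔪 t = ((n 𝔪 : 𝓞 (Fld 𝔪)) : Fld 𝔪) := by
    intro 𝔪
    have h1 := congrFun ((IsArtinianRing.equivPi (F ⊗[K] F')).apply_symm_apply
      fun 𝔪 => ((n 𝔪 : 𝓞 (Fld 𝔪)) : Fld 𝔪)) 𝔪
    exact h1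
  obtain ⟨c, m, hc, hm⟩ := clear2 t
  refine ⟨c, m, hc, ?_⟩
  funext 𝔪
  apply RingOfIntegers.ext
  rw [psi_apply, ps1_coe, hm, map_mul, map_intCast, ht1, Pi.smul_apply, zsmul_eq_mul]
  push_cast
  rfl

/-- one denominator for everything -/
theorem psi_unif : ∃ c : 𝓞 K, c ≠ 0 ∧ ∀ n : NN K F F', ∃ m : MM K F F', psi K F F' m = c • n := by
  classical
  have hfin : Module.Finite (𝓞 K) (NN K F F') := by
    have h1 : ∀ 𝔪 : Composite K F F', Module.Finite (𝓞 K) (𝓞 (Fld 𝔪)) := fun 𝔪 => inferInstance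
    exact Module.Finite.pi
  obtain ⟨s, hs⟩ := hfin.fg_top
  choose c m hc hm using fun n : NN K F F' => psi_tors n
  refine ⟨∏ n ∈ s, (c n : 𝓞 K), Finset.prod_ne_zero_iff.2 fun n _ => Int.cast_ne_zero.2 (hc n),
    fun n => ?_⟩
  have hn : n ∈ Submodule.span (𝓞 K) (s : Set (NN K F F')) := by
    rw [hs]
    exact Submodule.mem_top
  induction hn using Submodule.span_induction with
  | mem x hx =>
    have hx' : x ∈ s := hx
    refine ⟨(∏ y ∈ s.erase x, (c y : 𝓞 K)) • m x, ?_⟩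
    rw [map_smul, hm, ← Finset.mul_prod_erase _ _ hx', mul_comm, mul_smul, Int.cast_smul_eq_zsmul]
  | zero => exact ⟨0, by rw [map_zero, smul_zero]⟩
  | add x y _ _ hx hy =>
    obtain ⟨a, ha⟩ := hx
    obtain ⟨b, hb⟩ := hy
    exact ⟨a + b, by rw [map_add, ha, hb, smul_add]⟩
  | smul r x _ hx =>
    obtain ⟨a, ha⟩ := hx
    exact ⟨r • a, by rw [map_smul, ha, smul_comm]⟩

end

/-! ## homomorphisms to a domain -/

section
variable {R M N k : Type*} [CommRing R] [CommRing M] [CommRing N] [CommRing k] [IsDomain k]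
  [Algebra R M] [Algebra R N] [Algebra R k]

/-- extension of a homomorphism -/
theorem ext_hom (ψ : M →ₐ[R] N) (hψ : Function.Injective ψ) {c : R}
    (hc : ∀ n : N, ∃ m : M, ψ m = c • n) {u : k} (hu : u * algebraMap R k c = 1) (g : M →ₐ[R] k) :
    ∃ h : N →ₐ[R] k, h.comp ψ = g := by
  choose m hm using hc
  have key : ∀ (a : M) (n : N), ψ a = c • n → g a = g (m n) := by
    intro a n ha
    rw [hψ (ha.trans (hm n).symm)]
  refine ⟨AlgHom.mk (RingHom.mk (MonoidHom.mk (OneHom.mk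
    (fun n => u * g (m n)) ?_) ?_) ?_ ?_) ?_, ?_⟩
  · rw [← key (algebraMap R M c) 1 (by rw [AlgHom.commutes, Algebra.smul_def, mul_one]),
      AlgHom.commutes, hu]
  · intro x y
    simp only
    have h1 : ψ (m x * m y) = c • (c • (x * y)) := by
      rw [map_mul, hm, hm, smul_mul_smul_comm, mul_smul]
    have h2 : ψ (c • m (x * y)) = c • (c • (x * y)) := by rw [map_smul, hm]
    have h3 : g (m x) * g (m y) = algebraMap R k c * g (m (x * y)) := by
      rw [← map_mul, hψ (h1.trans h2.symm), map_smul, Algebra.smul_def]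
    calc u * g (m (x * y)) = u * (u * algebraMap R k c) * g (m (x * y)) := by rw [hu, mul_one]
      _ = u * u * (algebraMap R k c * g (m (x * y))) := by ring
      _ = u * u * (g (m x) * g (m y)) := by rw [h3]
      _ = _ := by ring
  · simp only
    rw [← key 0 0 (by rw [map_zero, smul_zero]), map_zero, mul_zero]
  · intro x y
    simp only
    rw [← key (m x + m y) (x + y) (by rw [map_add, hm, hm, smul_add]), map_add, mul_add]
  · intro r
    simp only
    rw [← key (algebraMap R M (c * r)) (algebraMap R N r)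
      (by rw [AlgHom.commutes, Algebra.smul_def, map_mul]), AlgHom.commutes, map_mul, ← mul_assoc,
      hu, one_mul]
  · ext a
    simp only [AlgHom.comp_apply, AlgHom.coe_mk, RingHom.coe_mk, MonoidHom.coe_mk, OneHom.coe_mk]
    rw [← key (c • a) (ψ a) (by rw [map_smul]), map_smul, Algebra.smul_def, ← mul_assoc,
      hu, one_mul]

omit [IsDomain k] in
/-- uniqueness of the extension -/
theorem ext_uniq (ψ : M →ₐ[R] N) {c : R}
    (hc : ∀ n : N, ∃ m : M, ψ m = c • n) {u : k} (hu : u * algebraMap R k c = 1)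
    {h h' : N →ₐ[R] k} (he : h.comp ψ = h'.comp ψ) : h = h' := by
  ext n
  obtain ⟨m, hm⟩ := hc n
  have h1 := DFunLike.congr_fun he m
  simp only [AlgHom.comp_apply] at h1
  rw [hm, map_smul, map_smul, Algebra.smul_def, Algebra.smul_def] at h1
  have h2 := congrArg (fun y => u * y) h1
  simp only [← mul_assoc, hu, one_mul] at h2
  exact h2

/-- a homomorphism from a product to a domain -/
theorem pi_hom {ι : Type*} [Finite ι] {B : ι → Type*} [∀ i, CommRing (B i)] [∀ i, Algebra R (B i)]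
    (h : (∀ i, B i) →ₐ[R] k) : ∃ (i : ι) (g : B i →ₐ[R] k), ∀ b, h b = g (b i) := by
  classical
  have hft := Fintype.ofFinite ι
  have h1 : ∑ i, h (Pi.single i 1) = 1 := by
    have h0 : ∑ x, Pi.single x (1 : B x) = (1 : ∀ i, B i) :=
      Finset.univ_sum_single (1 : ∀ i, B i)
    rw [← map_sum, h0, map_one]
  obtain ⟨i, -, hi⟩ : ∃ i ∈ Finset.univ, h (Pi.single i 1) ≠ 0 := by
    by_contra hcon
    push Not at hcon
    rw [Finset.sum_eq_zero hcon] at h1
    exact zero_ne_one h1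
  have hid : h (Pi.single i 1) = 1 := by
    have h2 : h (Pi.single i 1) * h (Pi.single i 1) = h (Pi.single i 1) := by
      rw [← map_mul, ← Pi.single_mul, one_mul]
    exact mul_left_cancel₀ hi (by rw [h2, mul_one])
  have h3 : ∀ b, h b = h (Pi.single i (b i)) := by
    intro b
    have h4 : b * Pi.single i 1 = Pi.single i (b i) := by
      funext j
      by_cases hj : j = i
      · subst hj
        rw [Pi.mul_apply, Pi.single_eq_same, Pi.single_eq_same, mul_one]
      · rw [Pi.mul_apply, Pi.single_eq_of_ne hj, Pi.single_eq_of_ne hj, mul_zero]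
    rw [← h4, map_mul, hid, mul_one]
  refine ⟨i, AlgHom.mk (RingHom.mk (MonoidHom.mk (OneHom.mk (fun a => h (Pi.single i a)) hid)
    ?_) ?_ ?_) ?_, h3⟩
  · intro x y
    simp only
    rw [Pi.single_mul, map_mul]
  · simp only
    rw [Pi.single_zero, map_zero]
  · intro x y
    simp only
    rw [Pi.single_add, map_add]
  · intro r
    simp only
    have := h3 (algebraMap R _ r)
    rw [AlgHom.commutes] at this
    exact this.symm

theorem pi_hom_uniq {ι : Type*} {B : ι → Type*} [∀ i, CommRing (B i)]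
    {i j : ι} {g : B i →+* k} {g' : B j →+* k} (h : ∀ b : ∀ i, B i, g (b i) = g' (b j)) : i = j := by
  classical
  by_contra hne
  have h1 := h (Pi.single i 1)
  rw [Pi.single_eq_same, Pi.single_eq_of_ne (Ne.symm hne), map_one, map_zero] at h1
  exact one_ne_zero h1

end

end Pool.Agent.HS37.WT
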