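import Mathlib
import Pool.Agent.HS37.HT.Defs

/-!
# Twists by monomial representations of the Weil group: definitions

`K` is a number field, the primes of `K` are the elements of `HeightOneSpectrum (𝓞 K)`, and `Nv` is the
absolute norm of a prime `v`.  Hecke characters (`IsHecke`), and the Euler product `LFun`, are defined
in `Pool.Agent.HS37.HT.Defs`, for every number field.
-/

set_option autoImplicit false

namespace Pool.Agent.HS37.WT

open NumberField IsDedekindDomain Filter Topology Polynomial TensorProduct
open Pool.Agent.HS37.HT (LFun)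

/-- The cohomology `H = H^w(M)` of a motive `M` over the number field `K` in one degree, as far as the
Frobenius eigenvalues at almost all primes are concerned: `frob v` is the multiset of the eigenvalues of
the geometric Frobenius at `v`, it has `rank` elements, and they have absolute value `Nv^{w/2}`,
`w = weight`.  By the theorem of Deligne every Chow motive over `K` (with coefficients in a number field
`T ⊆ ℂ`, if one likes) and every integer `w` give such data. -/
structure Motive (K : Type) [Field K] [NumberField K] where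
  weight : ℤ
  rank : ℕ
  frob : HeightOneSpectrum (𝓞 K) → Multiset ℂ
  pure : ∀ᶠ v in cofinite, Multiset.card (frob v) = rank ∧
    ∀ α ∈ frob v, ‖α‖ = (Ideal.absNorm v.asIdeal : ℝ) ^ ((weight : ℝ) / 2)

section
variable {K F : Type} [Field K] [NumberField K] [Field F] [NumberField F]

/-- The prime of `K` below the prime `x` of `F`, for an embedding `i : K → F`. -/
def res (i : K →+* F) (x : HeightOneSpectrum (𝓞 F)) : HeightOneSpectrum (𝓞 K) where
  asIdeal := x.asIdeal.comap (RingOfIntegers.mapRingHom i)
  isPrime := x.isPrime.comap _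
  ne_bot := by
    intro h
    have h1 : ((Ideal.absNorm x.asIdeal : ℕ) : 𝓞 K) ∈
        x.asIdeal.comap (RingOfIntegers.mapRingHom i) := by
      rw [Ideal.mem_comap, map_natCast]
      exact Ideal.absNorm_mem _
    rw [h, Ideal.mem_bot, Nat.cast_eq_zero, Ideal.absNorm_eq_zero_iff] at h1
    exact x.ne_bot h1

/-- The point `w/2 + 1` of the edge `Re s = w/2 + 1` of the half plane of absolute convergence. -/
noncomputable def edge (H : Motive K) : ℂ := (H.weight : ℂ) / 2 + 1

variable [Algebra K F]

/-- The polynomials `B x` are the Euler factors of `L(H_F ⊗ χ, s) = L(H ⊗ Ind_F^K χ, s)`, `H_F` the base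
change of `H` to the finite extension `F` of `K`: for almost all primes `x` of `F`,
`B_x(z) = ∏ (1 - α^f χ(x) z)`, the product over the eigenvalues `α` of Frobenius at the prime `v` of `K`
below `x`, where `f` is the degree of `x` over `v`.  At the other primes `B x` is an arbitrary
polynomial, and no factor `1 / B_x(Nx^{-s})` has a pole at `s = w/2 + 1`. -/
def IsEuler (H : Motive K) (χ : HeightOneSpectrum (𝓞 F) → ℂ)
    (B : HeightOneSpectrum (𝓞 F) → ℂ[X]) : Prop :=
  (∀ᶠ x in cofinite, ∀ z : ℂ, (B x).eval z =
    ((H.frob (res (algebraMap K F) x)).map fun α =>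
      1 - α ^ x.asIdeal.inertiaDeg (𝓞 K) * χ x * z).prod) ∧
  ∀ x, (B x).eval ((Ideal.absNorm x.asIdeal : ℂ) ^ (-(edge H))) ≠ 0

/-- `log |L(w/2 + 1 + ε)| / log(1/ε)`; for a function with a meromorphic continuation of order `m` at
`w/2 + 1` it tends to `-m` as `ε → 0+`. -/
noncomputable def size (H : Motive K) (B : HeightOneSpectrum (𝓞 F) → ℂ[X]) (ε : ℝ) : ℝ :=
  Real.log ‖LFun B (edge H + ε)‖ / Real.log (1 / ε)

/-- `L(H_F ⊗ χ, s)` has a meromorphic continuation to a neighbourhood of `w/2 + 1`, of order `m` at
`w/2 + 1` (positive for a zero, negative for a pole). -/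
def HasOrder (H : Motive K) (χ : HeightOneSpectrum (𝓞 F) → ℂ) (m : ℤ) : Prop :=
  ∃ (B : HeightOneSpectrum (𝓞 F) → ℂ[X]) (Λ : ℂ → ℂ), IsEuler H χ B ∧
    MeromorphicAt Λ (edge H) ∧
    (∀ᶠ s in 𝓝 (edge H), (edge H).re < s.re → Λ s = LFun B s) ∧
    meromorphicOrderAt Λ (edge H) = m

end

section
variable {K : Type} [Field K] [NumberField K]

variable (K) in
/-- The primes of `K` above which there is a prime of `F` of degree one over `K`.  (The value of the
character of `Ind_F^K χ` at the Frobenius element of every other prime is zero, for almost all primes.) -/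
def degOne (F : Type) [Field F] [NumberField F] [Algebra K F] : Set (HeightOneSpectrum (𝓞 K)) :=
  {v | ∃ x : HeightOneSpectrum (𝓞 F), res (algebraMap K F) x = v ∧
    Ideal.absNorm x.asIdeal = Ideal.absNorm v.asIdeal}

/-- The upper (Dirichlet) density of the set `A` of primes is at most `δ`. -/
def DensityLE (A : Set (HeightOneSpectrum (𝓞 K))) (δ : ℝ) : Prop :=
  ∀ η : ℝ, 0 < η → ∀ᶠ ε : ℝ in 𝓝[>] 0,
    ∑' v : A, (Ideal.absNorm v.1.asIdeal : ℝ) ^ (-(1 + ε)) ≤
      (δ + η) * ∑' v : HeightOneSpectrum (𝓞 K), (Ideal.absNorm v.asIdeal : ℝ) ^ (-(1 + ε))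

end

section
variable (K F F' : Type) [Field K] [NumberField K] [Field F] [NumberField F] [Field F']
  [NumberField F'] [Algebra K F] [Algebra K F']

/-- The composites of the extensions `F` and `F'` of `K`: they correspond to the maximal ideals of
`F ⊗_K F'`. -/
abbrev Composite : Type := MaximalSpectrum (F ⊗[K] F')

end

section
variable {K F F' : Type} [Field K] [NumberField K] [Field F] [NumberField F] [Field F']
  [NumberField F'] [Algebra K F] [Algebra K F']

/-- the field of a composite -/
def Fld (𝔪 : Composite K F F') : Type := (F ⊗[K] F') ⧸ 𝔪.asIdeal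

noncomputable instance (𝔪 : Composite K F F') : Field (Fld 𝔪) :=
  Ideal.Quotient.field 𝔪.asIdeal

noncomputable instance (𝔪 : Composite K F F') : Algebra K (Fld 𝔪) :=
  inferInstanceAs (Algebra K ((F ⊗[K] F') ⧸ 𝔪.asIdeal))

theorem fld_finite (𝔪 : Composite K F F') : Module.Finite K ((F ⊗[K] F') ⧸ 𝔪.asIdeal) :=
  inferInstance

theorem nf_of (E : Type) [Field E] [Algebra K E] (h : Module.Finite K E) : NumberField E := by
  have h0 : CharZero E := charZero_of_injective_algebraMap (algebraMap K E).injective
  have h2 : Module.Finite ℚ E := Module.Finite.trans K E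
  exact { to_charZero := h0, to_finiteDimensional := h2 }

instance (𝔪 : Composite K F F') : NumberField (Fld 𝔪) :=
  nf_of (K := K) (Fld 𝔪) (fld_finite 𝔪)

/-- the embedding of `F` -/
noncomputable def lft (𝔪 : Composite K F F') : F →+* Fld 𝔪 :=
  (Ideal.Quotient.mk 𝔪.asIdeal).comp (Algebra.TensorProduct.includeLeft (R := K) (S := K)
    (A := F) (B := F')).toRingHom

/-- the embedding of `F'` -/
noncomputable def rgt (𝔪 : Composite K F F') : F' →+* Fld 𝔪 :=
  (Ideal.Quotient.mk 𝔪.asIdeal).comp (Algebra.TensorProduct.includeRight (R := K)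
    (A := F) (B := F')).toRingHom

/-- The characters `χ` of `F` and `χ'` of `F'` agree on the composite `E`: `χ(z ∩ F) = χ'(z ∩ F')` for
almost all primes `z` of `E` of degree one over `K`.  (Equivalently: the Hecke characters
`χ ∘ N_{E/F}` and `χ' ∘ N_{E/F'}` of `E` are equal.) -/
def Agree (χ : HeightOneSpectrum (𝓞 F) → ℂ) (χ' : HeightOneSpectrum (𝓞 F') → ℂ)
    (𝔪 : Composite K F F') : Prop :=
  ∀ᶠ z : HeightOneSpectrum (𝓞 (Fld 𝔪)) in cofinite,
    Ideal.absNorm z.asIdeal = Ideal.absNorm (res (algebraMap K (Fld 𝔪)) z).asIdeal →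
      χ (res (lft 𝔪) z) = χ' (res (rgt 𝔪) z)

variable (K) in
/-- The number of composites on which `χ` and `χ'` agree.  By Mackey's theorem this is the dimension of
the space of homomorphisms from `Ind_F^K χ` to `Ind_{F'}^K χ'`, the induced representations of the Weil
group of `K` (the number of common constituents, counted with multiplicities). -/
noncomputable def common (χ : HeightOneSpectrum (𝓞 F) → ℂ) (χ' : HeightOneSpectrum (𝓞 F') → ℂ) : ℕ :=
  Nat.card {𝔪 : Composite K F F' // Agree χ χ' 𝔪}

end

section
variable {K : Type} [Field K] [NumberField K]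

/-- A monomial representation `Ind_F^K χ` of the Weil group of `K`, of degree at most `D`: a finite
extension `F` of `K` of degree at most `D` and a Hecke character `χ` of `F`. -/
structure Twist (K : Type) [Field K] [NumberField K] (D : ℕ) : Type 1 where
  F : Type
  [field : Field F]
  [numberField : NumberField F]
  [algebra : Algebra K F]
  deg : Module.finrank K F ≤ D
  χ : HeightOneSpectrum (𝓞 F) → ℂ
  hecke : Pool.Agent.HS37.HT.IsHecke χ

attribute [instance] Twist.field Twist.numberField Twist.algebra

/-- `L(H_F ⊗ χ, s)` has a meromorphic continuation to a neighbourhood of the point `w/2 + 1`, with a zero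
or a pole at this point. -/
def Exceptional (H : Motive K) {D : ℕ} (p : Twist K D) : Prop := ∃ m : ℤ, m ≠ 0 ∧ HasOrder H p.χ m

end

end Pool.Agent.HS37.WT
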