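import Pool.Agent.HS37.WT.Bes

/-!
# Densities
-/

set_option autoImplicit false
set_option linter.unusedSectionVars false

open NumberField IsDedekindDomain Filter Topology ComplexConjugate Polynomial

namespace Pool.Agent.HS37.WT

open Pool.Agent.H341R2 Pool.Agent.W540.BE Pool.Agent.HS37.HK

section
variable {K F : Type} [Field K] [NumberField K] [Field F] [NumberField F] [Algebra K F]
  {𝒰 : Ultrafilter ℝ}

theorem EP_ind (A : Set (HeightOneSpectrum (𝓞 K))) (ε : ℝ) :
    EP nm ε (ind A) = ∑' v : A, (Ideal.absNorm v.1.asIdeal : ℝ) ^ (-(1 + ε)) := by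
  classical
  unfold EP
  rw [tsum_subtype A fun v : HeightOneSpectrum (𝓞 K) => (Ideal.absNorm v.asIdeal : ℝ) ^ (-(1 + ε))]
  refine tsum_congr fun v => ?_
  unfold ind Set.indicator
  split_ifs
  · rw [one_mul]; rfl
  · rw [zero_mul]

theorem EP_one' (ε : ℝ) : (EP (nm (K := K)) ε fun _ => 1) =
    ∑' v : HeightOneSpectrum (𝓞 K), (Ideal.absNorm v.asIdeal : ℝ) ^ (-(1 + ε)) := by
  unfold EP
  exact tsum_congr fun v => by rw [one_mul]; rfl

/-- from the density to mean values -/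
theorem dens_av {A : Set (HeightOneSpectrum (𝓞 K))} {δ : ℝ} (h : DensityLE A δ)
    (hU : (𝒰 : Filter ℝ) ≤ 𝓝[>] 0) : ∃ d, Av nm 𝒰 (ind A) d ∧ d ≤ δ := by
  obtain ⟨d, hd⟩ := (sysK (K := K) hU).exists (ind_bd A)
  refine ⟨d, hd, le_of_forall_pos_le_add fun η hη => ?_⟩
  have h1 := (h η hη).filter_mono hU
  have h2 : Tendsto (fun ε : ℝ => (δ + η) * ((EP (nm (K := K)) ε fun _ => 1) / lam ε)) 𝒰
      (𝓝 ((δ + η) * 1)) := ((EP_one (K := K)).mono_left hU).const_mul _
  rw [mul_one] at h2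
  refine le_of_tendsto_of_tendsto hd h2 ?_
  filter_upwards [h1, (sysK (K := K) hU).pos] with ε h3 h4
  rw [← EP_ind, ← EP_one'] at h3
  rw [← mul_div_assoc]
  exact div_le_div_of_nonneg_right h3 h4.2.le

theorem dens_one (A : Set (HeightOneSpectrum (𝓞 K))) : DensityLE A 1 := by
  classical
  intro η hη
  filter_upwards [self_mem_nhdsWithin] with ε hε
  have hε' : (0 : ℝ) < ε := hε
  rw [← EP_ind, ← EP_one']
  have h1 : EP (nm (K := K)) ε (ind A) ≤ 1 * EP (nm (K := K)) ε fun _ => 1 := by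
    obtain ⟨B, hB⟩ := ind_bd A
    refine EP_le nsys hε' hB fun p => ?_
    unfold ind
    split_ifs <;> norm_num
  have h2 : 0 ≤ EP (nm (K := K)) ε fun _ => 1 := EP_nonneg fun _ => zero_le_one
  nlinarith

/-- a majorant with a mean value bounds the density -/
theorem dens_of_av {A : Set (HeightOneSpectrum (𝓞 K))} {g : HeightOneSpectrum (𝓞 K) → ℝ} {δ : ℝ}
    (hg : Bd g) (hle : ∀ᶠ v in cofinite, ind A v ≤ g v)
    (hm : ∀ 𝒰 : Ultrafilter ℝ, (𝒰 : Filter ℝ) ≤ 𝓝[>] 0 → Av nm 𝒰 g δ) : DensityLE A δ := by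
  classical
  intro η hη
  -- by ultrafilters
  have h1 : ∀ᶠ ε : ℝ in 𝓝[>] 0, (EP (nm (K := K)) ε (ind A) -
      (δ + η) * EP (nm (K := K)) ε fun _ => 1) / lam ε ≤ -η + η := by
    refine Pool.Agent.HS37.HT.ev_of_ultra (fun 𝒰 hU => ?_) hη
    obtain ⟨d, hd⟩ := (sysK (K := K) hU).exists (ind_bd A)
    refine ⟨d - (δ + η) * 1, ?_, ?_⟩
    · have h2 := ((EP_one (K := K)).mono_left hU).const_mul (δ + η)
      exact (Tendsto.sub hd h2).congr fun ε => by ring
    · -- `d ≤ δ`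
      set g' : HeightOneSpectrum (𝓞 K) → ℝ := fun v => if ind A v ≤ g v then g v else ind A v
        with hg'
      have hfin : {v | g v ≠ g' v}.Finite := by
        rw [Filter.eventually_cofinite] at hle
        refine hle.subset fun v hv h => hv ?_
        rw [hg']
        simp only
        rw [if_pos h]
      have h3 : Av nm 𝒰 g' δ := Av.congr_fin (sysK hU) hg hfin (hm 𝒰 hU)
      have h4 := Av.mono (sysK hU) (ind_bd A) (hg.of_fin hfin) hd h3 fun v => by
        rw [hg']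
        simp only
        split_ifs with h
        · exact h
        · exact le_rfl
      linarith
  filter_upwards [h1, lam_tendsto.eventually_gt_atTop 0] with ε h2 h3
  rw [neg_add_cancel, div_le_iff₀ h3, zero_mul, EP_ind, EP_one'] at h2
  linarith

/-! ## Galois subfields -/

/-- the number of primes of degree one above a prime -/
theorem S_one (v : HeightOneSpectrum (𝓞 K)) :
    S (fun _ : HeightOneSpectrum (𝓞 F) => (1 : ℝ)) v = Fintype.card (Hm K F v) := by
  unfold S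
  rw [Finset.sum_const, Finset.card_univ, nsmul_eq_mul, mul_one]

theorem mean_S_one (hU : (𝒰 : Filter ℝ) ≤ 𝓝[>] 0) :
    Av nm 𝒰 (S (fun _ : HeightOneSpectrum (𝓞 F) => (1 : ℝ)) : HeightOneSpectrum (𝓞 K) → ℝ) 1 :=
  (Av_dn hU (Bd.const 1)).1 (Av.const (sysK hU) 1)

/-- an automorphism on the integers -/
noncomputable def aut (σ : F ≃ₐ[K] F) : 𝓞 F →ₐ[𝓞 K] 𝓞 F where
  toRingHom := RingOfIntegers.mapRingHom (σ : F →+* F)
  commutes' r := by
    apply RingOfIntegers.ext
    exact σ.commutes (r : K)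

/-- for almost all primes there are no primes of degree one or at least as many as automorphisms -/
theorem card_aut : ∀ᶠ v : HeightOneSpectrum (𝓞 K) in cofinite, Nonempty (Hm K F v) →
    Fintype.card (F ≃ₐ[K] F) ≤ Fintype.card (Hm K F v) := by
  classical
  -- witnesses
  have hw : ∀ σ : F ≃ₐ[K] F, ∃ a : 𝓞 F, σ ≠ 1 → aut σ a ≠ a := by
    intro σ
    by_cases h : σ = 1
    · exact ⟨0, fun h' => absurd h h'⟩
    · by_contra hcon
      push Not at hcon
      apply h
      ext x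
      obtain ⟨n, α, hn, hα⟩ := clear1 x
      obtain ⟨-, h1⟩ := hcon α
      have h2 : σ (α : F) = (α : F) := congrArg (fun y : 𝓞 F => (y : F)) h1
      rw [hα, map_mul, map_intCast] at h2
      exact mul_left_cancel₀ (by exact_mod_cast hn) h2
  choose a ha using hw
  have hev : ∀ σ : F ≃ₐ[K] F, ∀ᶠ v : HeightOneSpectrum (𝓞 K) in cofinite, σ ≠ 1 →
      ∀ h : Hm K F v, h (aut σ (a σ)) ≠ h (a σ) := by
    intro σ
    by_cases h1 : σ = 1
    · exact Filter.Eventually.of_forall fun v h2 => absurd h1 h2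
    · have h2 : aut σ (a σ) - a σ ≠ 0 := sub_ne_zero.2 (ha σ h1)
      filter_upwards [ev_notmem (nrm_ne (F := K) h2)] with v hv _ h h3
      apply hv
      obtain ⟨b, hb⟩ := Algebra.dvd_algebraMap_intNorm_self (𝓞 K) (𝓞 F) (aut σ (a σ) - a σ)
      have h4 := hm_alg h (Algebra.intNorm (𝓞 K) (𝓞 F) (aut σ (a σ) - a σ))
      rw [hb, map_mul, map_sub, h3, sub_self, zero_mul] at h4
      exact Ideal.Quotient.eq_zero_iff_mem.1 h4.symm
  filter_upwards [Filter.eventually_all.2 hev] with v hv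
  rintro ⟨h⟩
  refine Fintype.card_le_of_injective (fun σ : F ≃ₐ[K] F => h.comp (aut σ)) fun σ τ hστ => ?_
  by_contra hne
  have h1 : τ⁻¹ * σ ≠ 1 := fun h2 => hne (inv_mul_eq_one.1 h2).symm
  have h2 := hv (τ⁻¹ * σ) h1 (h.comp (aut τ))
  apply h2
  have h3 := DFunLike.congr_fun hστ (a (τ⁻¹ * σ))
  have h4 : (h.comp (aut τ)) (aut (τ⁻¹ * σ) (a (τ⁻¹ * σ))) = (h.comp (aut σ)) (a (τ⁻¹ * σ)) := by
    change h (aut τ (aut (τ⁻¹ * σ) (a (τ⁻¹ * σ)))) = h (aut σ (a (τ⁻¹ * σ)))
    congr 1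
    apply RingOfIntegers.ext
    change τ ((τ⁻¹ * σ) _) = σ _
    simp [AlgEquiv.mul_apply]
  rw [h4]
  exact h3

theorem mem_degOne_iff {v : HeightOneSpectrum (𝓞 K)} : v ∈ degOne K F ↔ Nonempty (Hm K F v) := by
  constructor
  · rintro ⟨x, hx, hn⟩
    subst hx
    obtain ⟨h, -⟩ := exists_hm (K := K) (x := x) hn
    exact ⟨h⟩
  · rintro ⟨h⟩
    refine ⟨kr h, dn_kr h, ?_⟩
    have h1 : nm (kr h) = nm (dn K (kr h)) := D1_kr h
    rw [dn_kr] at h1
    exact h1

theorem S_zero {E : Type*} [AddCommMonoid E] (f : HeightOneSpectrum (𝓞 F) → E)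
    {v : HeightOneSpectrum (𝓞 K)} (h : v ∉ degOne K F) : S f v = 0 := by
  rw [mem_degOne_iff, not_nonempty_iff] at h
  unfold S
  rw [Finset.univ_eq_empty, Finset.sum_empty]

/-- the primes with a prime of degree one above, in a field that contains a Galois extension -/
theorem dens_galois {κ : Type} (F : κ → Type) [∀ k, Field (F k)] [∀ k, NumberField (F k)]
    [∀ k, Algebra K (F k)] (F₀ : Type) [Field F₀] [NumberField F₀] [Algebra K F₀] [IsGalois K F₀]
    (h : ∀ k, Nonempty (F₀ →ₐ[K] F k)) :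
    DensityLE {v | ∃ k, v ∈ degOne K (F k)} (1 / (Module.finrank K F₀ : ℝ)) := by
  classical
  set d : ℝ := (Module.finrank K F₀ : ℝ) with hd
  have hd0 : 0 < d := by
    rw [hd]
    exact_mod_cast Module.finrank_pos
  have hcard : Fintype.card (F₀ ≃ₐ[K] F₀) = Module.finrank K F₀ := by
    rw [← Nat.card_eq_fintype_card]
    exact IsGalois.card_aut_eq_finrank K F₀
  have hb : Bd (S (fun _ : HeightOneSpectrum (𝓞 F₀) => (1 : ℝ)) : HeightOneSpectrum (𝓞 K) → ℝ) :=
    ⟨_, S_abs (B := 1) fun _ => by simp⟩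
  refine dens_of_av (hb.const_mul (1 / d)) ?_ fun 𝒰 hU =>
    ((mean_S_one (F := F₀) hU).const_mul (1 / d)).congr (fun _ => rfl) (mul_one _)
  filter_upwards [card_aut (K := K) (F := F₀)] with v hv
  unfold ind
  split_ifs with hA
  · obtain ⟨k, hk⟩ := hA
    rw [mem_degOne_iff] at hk
    obtain ⟨g⟩ := hk
    obtain ⟨i⟩ := h k
    have h0 : Nonempty (Hm K F₀ v) := by
      let j : 𝓞 F₀ →ₐ[𝓞 K] 𝓞 (F k) :=
        { toRingHom := RingOfIntegers.mapRingHom (i : F₀ →+* F k)
          commutes' := fun r => RingOfIntegers.ext (i.commutes (r : K)) }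
      exact ⟨g.comp j⟩
    have h1 := hv h0
    rw [hcard] at h1
    rw [S_one]
    have h2 : d ≤ (Fintype.card (Hm K F₀ v) : ℝ) := by
      rw [hd]
      exact_mod_cast h1
    rw [one_div, ← div_eq_inv_mul, le_div_iff₀ hd0, one_mul]
    exact h2
  · rw [S_one]
    positivity

end

end Pool.Agent.HS37.WT
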