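import Pool.Agent.HS37.WT.Dens

/-!
# Twists by monomial representations of the Weil group
-/

set_option autoImplicit false
set_option linter.unusedSectionVars false

open NumberField IsDedekindDomain Filter Topology ComplexConjugate Polynomial

namespace Pool.Agent.HS37.WT

open Pool.Agent.H341R2 Pool.Agent.W540.BE Pool.Agent.HS37.HK
open Pool.Agent.HS37.HT (LFun IsHecke isHecke_hk ev_of_ultra exists_U)

section
variable {K F F' : Type} [Field K] [NumberField K] [Field F] [NumberField F] [Field F']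
  [NumberField F'] [Algebra K F] [Algebra K F']

omit [Algebra K F] in
theorem tendsto_res (i : K →+* F) : Tendsto (res i) cofinite cofinite := by
  let _ := i.toAlgebra
  exact tendsto_dn (K := K) (F := F)

theorem agree_congr {χ χ₁ : HeightOneSpectrum (𝓞 F) → ℂ} {χ' χ₁' : HeightOneSpectrum (𝓞 F') → ℂ}
    (h : AE χ₁ χ) (h' : AE χ₁' χ') {𝔪 : Composite K F F'} (ha : Agree χ χ' 𝔪) :
    Agree χ₁ χ₁' 𝔪 := by
  have h1 := (tendsto_res (lft 𝔪)).eventually h
  have h2 := (tendsto_res (rgt 𝔪)).eventually h'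
  filter_upwards [h1, h2, ha] with z k1 k2 k3 k4
  rw [k1, k2, k3 k4]

theorem common_congr {χ χ₁ : HeightOneSpectrum (𝓞 F) → ℂ} {χ' χ₁' : HeightOneSpectrum (𝓞 F') → ℂ}
    (h : AE χ₁ χ) (h' : AE χ₁' χ') : common K χ₁ χ₁' = common K χ χ' := by
  unfold common
  have : (fun 𝔪 : Composite K F F' => Agree χ₁ χ₁' 𝔪) = fun 𝔪 => Agree χ χ' 𝔪 := by
    funext 𝔪
    exact propext ⟨agree_congr h.symm h'.symm, agree_congr h h'⟩
  exact congrArg (fun p : Composite K F F' → Prop => Nat.card {𝔪 // p 𝔪}) this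

end

section
variable {K : Type} [Field K] [NumberField K] {κ : Type} [Fintype κ] {F : κ → Type}
  [∀ k, Field (F k)] [∀ k, NumberField (F k)] [∀ k, Algebra K (F k)]

/-- the inequality for the limits -/
theorem lim_ineq (H : Motive K) {χ : ∀ k, HeightOneSpectrum (𝓞 (F k)) → ℂ} (hχ : ∀ k, Hk (χ k))
    {δ : ℝ} (hδ : DensityLE {v | ∃ k, v ∈ degOne K (F k)} δ) {𝒰 : Ultrafilter ℝ}
    (hU : (𝒰 : Filter ℝ) ≤ 𝓝[>] 0) {x : κ → ℝ}
    (hx : ∀ k, Av nm 𝒰 (fun v : HeightOneSpectrum (𝓞 K) => (TK H v * S (χ k) v).re) (x k)) :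
    0 ≤ δ ∧ ∀ c : κ → ℝ, (∑ k, c k * x k) ^ 2 ≤
      δ * (H.rank : ℝ) ^ 2 * ∑ k, ∑ l, c k * c l * common K (χ k) (χ l) := by
  obtain ⟨d, hd, hdδ⟩ := dens_av hδ hU
  refine ⟨(Av.nonneg (sysK hU) hd (ind_nonneg _)).trans hdδ, fun c => ?_⟩
  exact (bessel_gram (sysK hU) (Nat.cast_nonneg _) (TK_le H) (f := fun k => S (χ k))
    (fun k => BdC_S (hχ k).bdc) (A := {v | ∃ k, v ∈ degOne K (F k)})
    (fun k v hv => S_zero (χ k) fun h => hv (Set.mem_ofPred_eq ▸ Exists.intro k h)) hd hdδ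
    (G := fun k l => (common K (χ k) (χ l) : ℝ))
    (fun k l => (gram hU (hχ k) (hχ l)).1.congr (fun _ => rfl) (by simp)) hx c).2

variable {χ : ∀ k, HeightOneSpectrum (𝓞 (F k)) → ℂ}

theorem sizes (H : Motive K) (hχ : ∀ k, IsHecke (χ k)) {δ : ℝ}
    (hδ : DensityLE {v | ∃ k, v ∈ degOne K (F k)} δ)
    {B : ∀ k, HeightOneSpectrum (𝓞 (F k)) → ℂ[X]} (hB : ∀ k, IsEuler H (χ k) (B k)) {η : ℝ}
    (hη : 0 < η) :
    (∀ᶠ ε : ℝ in 𝓝[>] 0, ∀ k, LFun (B k) (edge H + ε) ≠ 0) ∧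
    (∀ c : κ → ℝ, ∀ᶠ ε : ℝ in 𝓝[>] 0, (∑ k, c k * size H (B k) ε) ^ 2 ≤
      δ * (H.rank : ℝ) ^ 2 * (∑ k, ∑ l, c k * c l * common K (χ k) (χ l)) + η) ∧
    ((∀ k l, k ≠ l → common K (χ k) (χ l) = 0) → ∀ᶠ ε : ℝ in 𝓝[>] 0,
      ∑ k, size H (B k) ε ^ 2 / common K (χ k) (χ k) ≤ δ * (H.rank : ℝ) ^ 2 + η) := by
  choose χ' h' hae using fun k => isHecke_hk (hχ k)
  have hc : ∀ k l, common K (χ' k) (χ' l) = common K (χ k) (χ l) := fun k l =>
    common_congr (hae k) (hae l)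
  refine ⟨?_, fun c => ev_of_ultra (fun 𝒰 hU => ?_) hη, fun hd => ev_of_ultra (fun 𝒰 hU => ?_) hη⟩
  · rw [Filter.eventually_all]
    exact fun k => ne_zero H (h' k) (hae k) (hB k)
  · choose x hx using fun k => exists_lim H (h' k) hU
    refine ⟨(∑ k, c k * x k) ^ 2, (tendsto_finsetSum _ fun k _ =>
      (size_lim H (h' k) (hae k) (hB k) hU (hx k)).const_mul (c k)).pow 2, ?_⟩
    have h1 := (lim_ineq H h' hδ hU hx).2 c
    simp only [hc] at h1
    exact h1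
  · choose x hx using fun k => exists_lim H (h' k) hU
    refine ⟨∑ k, x k ^ 2 / common K (χ k) (χ k), tendsto_finsetSum _ fun k _ =>
      ((size_lim H (h' k) (hae k) (hB k) hU (hx k)).pow 2).div_const _, ?_⟩
    have h1 := lim_ineq H h' hδ hU hx
    simp only [hc] at h1
    exact diag_ineq h1.2 (fun k => Nat.cast_nonneg _) (fun k l hkl => by rw [hd k l hkl]; simp)
      (mul_nonneg h1.1 (sq_nonneg _))

theorem orders (H : Motive K) (hχ : ∀ k, IsHecke (χ k)) {δ : ℝ}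
    (hδ : DensityLE {v | ∃ k, v ∈ degOne K (F k)} δ) {m : κ → ℤ}
    (hm : ∀ k, HasOrder H (χ k) (m k)) :
    (∀ c : κ → ℝ, (∑ k, c k * m k) ^ 2 ≤
      δ * (H.rank : ℝ) ^ 2 * ∑ k, ∑ l, c k * c l * common K (χ k) (χ l)) ∧
    ((∀ k l, k ≠ l → common K (χ k) (χ l) = 0) →
      ∑ k, (m k : ℝ) ^ 2 / common K (χ k) (χ k) ≤ δ * (H.rank : ℝ) ^ 2) := by
  choose χ' h' hae using fun k => isHecke_hk (hχ k)
  have hc : ∀ k l, common K (χ' k) (χ' l) = common K (χ k) (χ l) := fun k l =>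
    common_congr (hae k) (hae l)
  obtain ⟨𝒰, hU⟩ := exists_U
  have h1 := lim_ineq H h' hδ hU (x := fun k => -(m k : ℝ)) fun k =>
    (order_mean H (h' k) (hae k) (hm k) hU).1.congr (fun _ => rfl) (by simp)
  simp only [hc] at h1
  have h2 : ∀ c : κ → ℝ, (∑ k, c k * m k) ^ 2 ≤
      δ * (H.rank : ℝ) ^ 2 * ∑ k, ∑ l, c k * c l * common K (χ k) (χ l) := by
    intro c
    have h3 := h1.2 c
    have h4 : ∑ k, c k * -(m k : ℝ) = -∑ k, c k * m k := by
      rw [← Finset.sum_neg_distrib]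
      exact Finset.sum_congr rfl fun k _ => by ring
    rw [h4, neg_sq] at h3
    exact h3
  exact ⟨h2, fun hd => diag_ineq h2 (fun k => Nat.cast_nonneg _)
    (fun k l hkl => by rw [hd k l hkl]; simp) (mul_nonneg h1.1 (sq_nonneg _))⟩

end

section
variable {K : Type} [Field K] [NumberField K] {F : Type} [Field F] [NumberField F] [Algebra K F]
  {χ : HeightOneSpectrum (𝓞 F) → ℂ} (F₀ : Type) [Field F₀] [NumberField F₀] [Algebra K F₀]
  [IsGalois K F₀]

/-- one character, over a field that contains a Galois extension -/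
theorem single_size (H : Motive K) (hχ : IsHecke χ) (h : Nonempty (F₀ →ₐ[K] F))
    {B : HeightOneSpectrum (𝓞 F) → ℂ[X]} (hB : IsEuler H χ B) {η : ℝ} (hη : 0 < η) :
    ∀ᶠ ε : ℝ in 𝓝[>] 0, size H B ε ^ 2 ≤
      (H.rank : ℝ) ^ 2 * common K χ χ / Module.finrank K F₀ + η := by
  have h1 := (sizes (κ := Unit) (F := fun _ => F) (χ := fun _ => χ) H (fun _ => hχ)
    (dens_galois (fun _ : Unit => F) F₀ fun _ => h) (B := fun _ => B) (fun _ => hB) hη).2.1 fun _ => 1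
  filter_upwards [h1] with ε h2
  simp only [Finset.univ_unique, Finset.sum_singleton, one_mul] at h2
  refine h2.trans (le_of_eq ?_)
  ring

theorem single_order (H : Motive K) (hχ : IsHecke χ) (h : Nonempty (F₀ →ₐ[K] F)) {m : ℤ}
    (hm : HasOrder H χ m) :
    (m : ℝ) ^ 2 ≤ (H.rank : ℝ) ^ 2 * common K χ χ / Module.finrank K F₀ := by
  have h1 := (orders (κ := Unit) (F := fun _ => F) (χ := fun _ => χ) H (fun _ => hχ)
    (dens_galois (fun _ : Unit => F) F₀ fun _ => h) (m := fun _ => m) fun _ => hm).1 fun _ => 1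
  simp only [Finset.univ_unique, Finset.sum_singleton, one_mul] at h1
  refine h1.trans (le_of_eq ?_)
  ring

theorem single_zero (H : Motive K) (hχ : IsHecke χ) (h : Nonempty (F₀ →ₐ[K] F)) {m : ℤ}
    (hm : HasOrder H χ m) (hN : H.rank ^ 2 * common K χ χ < Module.finrank K F₀) : m = 0 := by
  have h1 := single_order F₀ H hχ h hm
  have hd : (0 : ℝ) < Module.finrank K F₀ := by exact_mod_cast Module.finrank_pos
  have h2 : (H.rank : ℝ) ^ 2 * common K χ χ / Module.finrank K F₀ < 1 := by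
    rw [div_lt_one hd]
    exact_mod_cast hN
  have h3 : (m : ℝ) ^ 2 < 1 := h1.trans_lt h2
  have h4 : m ^ 2 < 1 := by exact_mod_cast h3
  have h5 := sq_nonneg m
  have h6 : m ^ 2 = 0 := by omega
  exact pow_eq_zero_iff (two_ne_zero) |>.1 h6

end

end Pool.Agent.HS37.WT
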