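import Pool.Agent.HS37.WT.Fin

/-!
# Composites of a Galois extension with itself, and the number of composites
-/

set_option autoImplicit false
set_option linter.unusedSectionVars false

open NumberField IsDedekindDomain Filter Topology ComplexConjugate TensorProduct

namespace Pool.Agent.HS37.WT

open Pool.Agent.H341R2 Pool.Agent.W540.BE Pool.Agent.HS37.HK
open Pool.Agent.HS37.HT (LFun IsHecke isHecke_hk ev_of_ultra exists_U)

section
variable {K F F' : Type} [Field K] [NumberField K] [Field F] [NumberField F] [Field F']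
  [NumberField F'] [Algebra K F] [Algebra K F']

/-- the number of composites -/
theorem card_comp : Nat.card (Composite K F F') ≤ Module.finrank K F' := by
  classical
  have hft := Fintype.ofFinite (Composite K F F')
  have e := ((IsArtinianRing.equivPi (F ⊗[K] F')).toLinearEquiv.restrictScalars F)
  have h1 := e.finrank_eq
  have h2 : Module.finrank F (F ⊗[K] F') = Module.finrank K F' := Module.finrank_baseChange
  have hfin : ∀ 𝔪 : Composite K F F', Module.Finite F ((F ⊗[K] F') ⧸ 𝔪.asIdeal) := fun 𝔪 => by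
    have : Module.Finite F (F ⊗[K] F') := inferInstance
    exact Module.Finite.of_surjective (Ideal.Quotient.mkₐ F 𝔪.asIdeal).toLinearMap
      (Ideal.Quotient.mkₐ_surjective F 𝔪.asIdeal)
  rw [h2, Module.finrank_pi_fintype] at h1
  rw [h1, Nat.card_eq_fintype_card, Fintype.card_eq_sum_ones]
  refine Finset.sum_le_sum fun 𝔪 _ => ?_
  have : Nontrivial ((F ⊗[K] F') ⧸ 𝔪.asIdeal) := Ideal.Quotient.nontrivial_iff.2 𝔪.isMaximal.ne_top
  exact Module.finrank_pos

theorem common_le (χ : HeightOneSpectrum (𝓞 F) → ℂ) (χ' : HeightOneSpectrum (𝓞 F') → ℂ) :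
    common K χ χ' ≤ Module.finrank K F' := by
  unfold common
  exact (Nat.card_le_card_of_injective Subtype.val Subtype.val_injective).trans card_comp

end

section
variable {K F : Type} [Field K] [NumberField K] [Field F] [NumberField F]

theorem res_comp {E : Type} [Field E] [NumberField E] (i : K →+* F) (j : F →+* E)
    (z : HeightOneSpectrum (𝓞 E)) : res (j.comp i) z = res i (res j z) := by
  apply HeightOneSpectrum.ext
  ext a
  change RingOfIntegers.mapRingHom (j.comp i) a ∈ z.asIdeal ↔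
    RingOfIntegers.mapRingHom j (RingOfIntegers.mapRingHom i a) ∈ z.asIdeal
  have h2 : RingOfIntegers.mapRingHom (j.comp i) a =
      RingOfIntegers.mapRingHom j (RingOfIntegers.mapRingHom i a) := by
    apply RingOfIntegers.ext
    rfl
  rw [h2]

theorem res_id (z : HeightOneSpectrum (𝓞 F)) : res (RingHom.id F) z = z := by
  apply HeightOneSpectrum.ext
  ext a
  rfl

end

section
variable {K F : Type} [Field K] [NumberField K] [Field F] [NumberField F] [Algebra K F]

/-- the map `a ⊗ b ↦ a σ(b)` -/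
noncomputable def mu (σ : F ≃ₐ[K] F) : F ⊗[K] F →ₐ[K] F :=
  Algebra.TensorProduct.productMap (AlgHom.id K F) (σ : F →ₐ[K] F)

theorem mu_tmul (σ : F ≃ₐ[K] F) (a b : F) : mu σ (a ⊗ₜ b) = a * σ b :=
  Algebra.TensorProduct.productMap_apply_tmul _ _ _ _

theorem mu_surj (σ : F ≃ₐ[K] F) : Function.Surjective (mu σ) := fun a =>
  ⟨a ⊗ₜ 1, by rw [mu_tmul, map_one, mul_one]⟩

/-- the composite of an automorphism -/
noncomputable def cmp (σ : F ≃ₐ[K] F) : Composite K F F where
  asIdeal := RingHom.ker (mu σ)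
  isMaximal := RingHom.ker_isMaximal_of_surjective (mu σ) (mu_surj σ)

theorem rgt_cmp (σ : F ≃ₐ[K] F) (b : F) : rgt (cmp σ) b = lft (cmp σ) (σ b) := by
  have h1 : (1 : F) ⊗ₜ[K] b - (σ b) ⊗ₜ[K] (1 : F) ∈ (cmp σ).asIdeal := by
    change _ ∈ RingHom.ker (mu σ)
    rw [RingHom.mem_ker, map_sub, mu_tmul, mu_tmul, map_one, one_mul, mul_one, sub_self]
  exact Ideal.Quotient.eq.2 h1

theorem qm_mu {𝔪 : Composite K F F} {σ : F ≃ₐ[K] F} (h : ∀ b, rgt 𝔪 b = lft 𝔪 (σ b))
    (t : F ⊗[K] F) : qm 𝔪 t = lft 𝔪 (mu σ t) := by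
  induction t using TensorProduct.induction_on with
  | zero => rw [map_zero, map_zero, map_zero]
  | tmul a b =>
    rw [mu_tmul, map_mul, ← h b]
    have h2 : a ⊗ₜ[K] b = (a ⊗ₜ[K] (1 : F)) * ((1 : F) ⊗ₜ[K] b) := by
      rw [Algebra.TensorProduct.tmul_mul_tmul, one_mul, mul_one]
    rw [h2, map_mul]
    rfl
  | add t t' h1 h2 => rw [map_add, map_add, map_add, h1, h2]

theorem lft_bij {𝔪 : Composite K F F} {σ : F ≃ₐ[K] F} (h : ∀ b, rgt 𝔪 b = lft 𝔪 (σ b)) :
    Function.Bijective (lft 𝔪) := by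
  refine ⟨(lft 𝔪).injective, fun y => ?_⟩
  obtain ⟨t, ht⟩ := Ideal.Quotient.mk_surjective (I := 𝔪.asIdeal) y
  exact ⟨mu σ t, by rw [← qm_mu h]; exact ht⟩

theorem cmp_unique {𝔪 : Composite K F F} {σ : F ≃ₐ[K] F} (h : ∀ b, rgt 𝔪 b = lft 𝔪 (σ b)) :
    𝔪 = cmp σ := by
  apply MaximalSpectrum.ext
  ext t
  change t ∈ 𝔪.asIdeal ↔ t ∈ RingHom.ker (mu σ)
  rw [RingHom.mem_ker, ← map_eq_zero (lft 𝔪), ← qm_mu h]
  exact Ideal.Quotient.eq_zero_iff_mem.symm

theorem cmp_inj : Function.Injective (cmp : (F ≃ₐ[K] F) → Composite K F F) := by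
  intro σ τ h
  ext b
  have h1 : (1 : F) ⊗ₜ[K] b - (σ b) ⊗ₜ[K] (1 : F) ∈ (cmp σ).asIdeal := by
    change _ ∈ RingHom.ker (mu σ)
    rw [RingHom.mem_ker, map_sub, mu_tmul, mu_tmul, map_one, one_mul, mul_one, sub_self]
  rw [h] at h1
  change _ ∈ RingHom.ker (mu τ) at h1
  rw [RingHom.mem_ker, map_sub, mu_tmul, mu_tmul, map_one, one_mul, mul_one, sub_eq_zero] at h1
  exact h1.symm

theorem cmp_surj [IsGalois K F] : Function.Surjective (cmp : (F ≃ₐ[K] F) → Composite K F F) := by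
  intro 𝔪
  let _ := (lft 𝔪).toAlgebra
  have : IsScalarTower K F (Fld 𝔪) := IsScalarTower.of_algebraMap_eq fun r => (lft_alg 𝔪 r).symm
  let φ : F →ₐ[K] Fld 𝔪 := { toRingHom := rgt 𝔪, commutes' := fun r => rgt_alg 𝔪 r }
  let ρ : F →ₐ[K] F := AlgHom.restrictNormal φ F
  have hρ : ∀ b, lft 𝔪 (ρ b) = rgt 𝔪 b := fun b => AlgHom.restrictNormal_commutes φ F b
  let σ : F ≃ₐ[K] F := AlgEquiv.ofBijective ρ (Algebra.IsAlgebraic.algHom_bijective ρ)
  exact ⟨σ, (cmp_unique (𝔪 := 𝔪) (σ := σ) fun b => (hρ b).symm).symm⟩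

theorem agree_cmp (σ : F ≃ₐ[K] F) {χ χ' : HeightOneSpectrum (𝓞 F) → ℂ} :
    Agree χ χ' (cmp σ) ↔ ∀ᶠ x : HeightOneSpectrum (𝓞 F) in cofinite,
      D1 K x → χ x = χ' (res (σ : F →+* F) x) := by
  have hr : (lft (cmp σ)).comp (σ : F →+* F) = rgt (cmp σ) := by
    ext b
    exact (rgt_cmp σ b).symm
  have hl : (lft (cmp σ)).comp (algebraMap K F) = algebraMap K (Fld (cmp σ)) := by
    ext b
    exact lft_alg _ b
  let e : F ≃+* Fld (cmp σ) := RingEquiv.ofBijective (lft (cmp σ)) (lft_bij (rgt_cmp σ))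
  have he : (e : F →+* Fld (cmp σ)) = lft (cmp σ) := rfl
  have h1 : ∀ z : HeightOneSpectrum (𝓞 (Fld (cmp σ))),
      res (e.symm : Fld (cmp σ) →+* F) (res (e : F →+* Fld (cmp σ)) z) = z := by
    intro z
    rw [← res_comp]
    have : (e : F →+* Fld (cmp σ)).comp (e.symm : Fld (cmp σ) →+* F) = RingHom.id _ :=
      RingEquiv.toRingHom_comp_symm_toRingHom e
    rw [this, res_id]
  have h2 : ∀ x : HeightOneSpectrum (𝓞 F),
      res (e : F →+* Fld (cmp σ)) (res (e.symm : Fld (cmp σ) →+* F) x) = x := by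
    intro x
    rw [← res_comp]
    have : (e.symm : Fld (cmp σ) →+* F).comp (e : F →+* Fld (cmp σ)) = RingHom.id _ :=
      RingEquiv.symm_toRingHom_comp_toRingHom e
    rw [this, res_id]
  have h3 : ∀ z : HeightOneSpectrum (𝓞 (Fld (cmp σ))), nm (res (lft (cmp σ)) z) = nm z := by
    intro z
    refine le_antisymm (nm_res_le _ z) ?_
    have h4 := nm_res_le (e.symm : Fld (cmp σ) →+* F) (res (e : F →+* Fld (cmp σ)) z)
    rw [h1 z] at h4
    exact h4
  have h5 : ∀ z : HeightOneSpectrum (𝓞 (Fld (cmp σ))),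
      dn K (res (lft (cmp σ)) z) = dn K z := by
    intro z
    change res (algebraMap K F) (res (lft (cmp σ)) z) = res (algebraMap K (Fld (cmp σ))) z
    rw [← res_comp, hl]
  have h6 : ∀ z : HeightOneSpectrum (𝓞 (Fld (cmp σ))), D1 K (res (lft (cmp σ)) z) ↔ D1 K z := by
    intro z
    unfold D1
    rw [h3, h5]
  have h7 : ∀ z : HeightOneSpectrum (𝓞 (Fld (cmp σ))), res (rgt (cmp σ)) z =
      res (σ : F →+* F) (res (lft (cmp σ)) z) := by
    intro z
    rw [← res_comp, hr]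
  constructor
  · intro hA
    have h8 := (tendsto_res (e.symm : Fld (cmp σ) →+* F)).eventually hA
    filter_upwards [h8] with x h9 h10
    have h11 : res (lft (cmp σ)) (res (e.symm : Fld (cmp σ) →+* F) x) = x := h2 x
    rw [h7, h11] at h9
    apply h9
    have h12 := (h6 (res (e.symm : Fld (cmp σ) →+* F) x)).1 (by rw [h11]; exact h10)
    exact h12
  · intro hA
    have h8 := (tendsto_res (lft (cmp σ))).eventually hA
    unfold Agree
    filter_upwards [h8] with z h9 h10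
    rw [h7]
    exact h9 ((h6 z).2 h10)

/-- two Hecke characters that agree at the primes of degree one are equivalent -/
theorem ae_of_D1 {χ χ' : HeightOneSpectrum (𝓞 F) → ℂ} (h : Hk χ) (h' : Hk χ')
    (he : ∀ᶠ x : HeightOneSpectrum (𝓞 F) in cofinite, D1 K x → χ x = χ' x) : AE χ χ' := by
  obtain ⟨𝒰, hU⟩ := exists_U
  by_contra hne
  have h1 := (AvC_dn (K := K) hU ((h.mul h'.conj).bdc)).1 (orth h h' hne (sysK hU))
  have h2 : AvC nm 𝒰 (S (fun _ : HeightOneSpectrum (𝓞 F) => (1 : ℂ)) :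
      HeightOneSpectrum (𝓞 K) → ℂ) 1 := (AvC_dn hU (BdC.const 1)).1 (AvC.const (sysK hU) 1)
  have h3 : AvC nm 𝒰 (S fun x => χ x * conj (χ' x) : HeightOneSpectrum (𝓞 K) → ℂ) 1 := by
    refine AvC.congr_fin (sysK hU) (BdC_S (BdC.const 1)) (ne_fin ?_) h2
    filter_upwards [ev_kr (K := K) he] with v hv
    unfold S
    refine Finset.sum_congr rfl fun g _ => ?_
    simp only
    rw [hv g (D1_kr g), Complex.mul_conj, Complex.normSq_eq_norm_sq, h'.1]
    simp
  exact zero_ne_one (h1.unique h3)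

theorem hk_aut (σ : F ≃ₐ[K] F) {χ : HeightOneSpectrum (𝓞 F) → ℂ} (h : Hk χ) :
    ∃ χ', Hk χ' ∧ AE χ' fun x => χ (res (σ : F →+* F) x) := by
  obtain ⟨χ', h1, h2⟩ := Hk.bci (σ : F →+* F) h
  refine ⟨χ', h1, ?_⟩
  filter_upwards [h2] with x hx
  apply hx
  refine le_antisymm ?_ (nm_res_le _ x)
  have h4 := nm_res_le (σ.symm : F →+* F) (res (σ : F →+* F) x)
  rw [← res_comp] at h4
  have h5 : (σ : F →+* F).comp (σ.symm : F →+* F) = RingHom.id F := by
    ext b
    exact σ.apply_symm_apply b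
  rw [h5, res_id] at h4
  exact h4

/-- **Mackey's criterion** -/
theorem common_galois [IsGalois K F] {χ χ' : HeightOneSpectrum (𝓞 F) → ℂ} (h : IsHecke χ)
    (h' : IsHecke χ') : common K χ χ' =
      Nat.card {σ : F ≃ₐ[K] F // ∀ᶠ x : HeightOneSpectrum (𝓞 F) in cofinite,
        χ x = χ' (res (σ : F →+* F) x)} := by
  obtain ⟨χ₁, k1, e1⟩ := isHecke_hk h
  obtain ⟨χ₂, k2, e2⟩ := isHecke_hk h'
  have key : ∀ σ : F ≃ₐ[K] F, Agree χ χ' (cmp σ) ↔
      ∀ᶠ x : HeightOneSpectrum (𝓞 F) in cofinite, χ x = χ' (res (σ : F →+* F) x) := by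
    intro σ
    rw [agree_cmp]
    constructor
    · intro hA
      obtain ⟨χ₃, k3, e3⟩ := hk_aut σ k2
      have e4 : AE χ₃ fun x => χ' (res (σ : F →+* F) x) := by
        filter_upwards [e3, (tendsto_res (σ : F →+* F)).eventually e2] with x a1 a2
        rw [a1, a2]
      have h5 : AE χ₁ χ₃ := by
        refine ae_of_D1 (K := K) k1 k3 ?_
        filter_upwards [hA, e1, e4] with x a1 a2 a3 a4
        rw [a2, a3, a1 a4]
      filter_upwards [h5, e1, e4] with x a1 a2 a3
      rw [← a2, a1, a3]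
    · intro hA
      filter_upwards [hA] with x hx _
      exact hx
  unfold common
  refine Nat.card_congr (Equiv.symm (Equiv.subtypeEquiv
    (Equiv.ofBijective cmp ⟨cmp_inj, cmp_surj⟩) fun σ => ?_))
  exact (key σ).symm

end

end Pool.Agent.HS37.WT
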