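import Pool.Agent.HS37.WT.BC

/-!
# The Gram matrix of the monomial characters
-/

set_option autoImplicit false
set_option linter.unusedSectionVars false

open NumberField IsDedekindDomain Filter Topology ComplexConjugate TensorProduct

namespace Pool.Agent.HS37.WT

open Pool.Agent.H341R2 Pool.Agent.W540.BE Pool.Agent.HS37.HK

section
variable {K F E : Type} [Field K] [NumberField K] [Field F] [NumberField F] [Field E]
  [NumberField E] [Algebra K F] [Algebra K E]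

theorem nm_dn_le (x : HeightOneSpectrum (𝓞 F)) : nm (dn K x) ≤ nm x := by
  rw [nm_pow (K := K) x]
  exact Nat.le_self_pow (deg_pos x).ne' _

omit [Algebra K F] [Algebra K E] in
theorem nm_res_le (i : F →+* E) (z : HeightOneSpectrum (𝓞 E)) : nm (res i z) ≤ nm z := by
  let _ := i.toAlgebra
  exact nm_dn_le (K := F) (F := E) z

/-- a prime of degree one over `K` is of degree one over an intermediate field -/
theorem D1_mid (i : F →+* E) (hi : ∀ r : K, i (algebraMap K F r) = algebraMap K E r)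
    {z : HeightOneSpectrum (𝓞 E)} (hz : D1 K z) : nm z = nm (res i z) := by
  have h1 : dn K (res i z) = dn K z := by
    apply HeightOneSpectrum.ext
    ext a
    change RingOfIntegers.mapRingHom i (RingOfIntegers.mapRingHom (algebraMap K F) a) ∈ z.asIdeal ↔
      RingOfIntegers.mapRingHom (algebraMap K E) a ∈ z.asIdeal
    have h2 : RingOfIntegers.mapRingHom i (RingOfIntegers.mapRingHom (algebraMap K F) a) =
        RingOfIntegers.mapRingHom (algebraMap K E) a := by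
      apply RingOfIntegers.ext
      exact hi (a : K)
    rw [h2]
  have h2 := nm_dn_le (K := K) (res i z)
  rw [h1] at h2
  have h3 : nm z = nm (dn K z) := hz
  exact le_antisymm (h3.le.trans h2) (nm_res_le i z)

/-- base change along an embedding -/
theorem Hk.bci (i : F →+* E) {χ : HeightOneSpectrum (𝓞 F) → ℂ} (h : Hk χ) :
    ∃ χ' : HeightOneSpectrum (𝓞 E) → ℂ, Hk χ' ∧
      ∀ᶠ z : HeightOneSpectrum (𝓞 E) in cofinite, nm z = nm (res i z) → χ' z = χ (res i z) := by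
  let _ := i.toAlgebra
  exact Hk.bc (E := E) h

theorem ev_kr {P : HeightOneSpectrum (𝓞 E) → Prop} (h : ∀ᶠ z in cofinite, P z) :
    ∀ᶠ v : HeightOneSpectrum (𝓞 K) in cofinite, ∀ g : Hm K E v, P (kr g) := by
  rw [Filter.eventually_cofinite] at h ⊢
  refine (h.image (dn K)).subset fun v hv => ?_
  simp only [Set.mem_ofPred_eq, not_forall] at hv
  obtain ⟨g, hg⟩ := hv
  exact ⟨kr g, hg, dn_kr g⟩

theorem BdC_S {f : HeightOneSpectrum (𝓞 F) → ℂ} (hf : BdC f) :
    BdC (S f : HeightOneSpectrum (𝓞 K) → ℂ) := by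
  obtain ⟨B, hB⟩ := hf
  exact ⟨_, S_norm hB⟩

theorem ne_fin {f g : HeightOneSpectrum (𝓞 K) → ℂ} (h : ∀ᶠ v in cofinite, f v = g v) :
    {v | f v ≠ g v}.Finite := by
  rwa [Filter.eventually_cofinite] at h

theorem S_conj (f : HeightOneSpectrum (𝓞 F) → ℂ) (v : HeightOneSpectrum (𝓞 K)) :
    S (fun x => conj (f x)) v = conj (S f v) := by
  unfold S
  rw [map_sum]

end

section
variable {K F F' : Type} [Field K] [NumberField K] [Field F] [NumberField F] [Field F']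
  [NumberField F'] [Algebra K F] [Algebra K F'] {𝒰 : Ultrafilter ℝ}

/-- the Gram matrix -/
theorem gram (hU : (𝒰 : Filter ℝ) ≤ 𝓝[>] 0) {χ : HeightOneSpectrum (𝓞 F) → ℂ}
    {χ' : HeightOneSpectrum (𝓞 F') → ℂ} (h : Hk χ) (h' : Hk χ') :
    AvC nm 𝒰 (fun v : HeightOneSpectrum (𝓞 K) => S χ v * conj (S χ' v)) (common K χ χ' : ℕ) := by
  classical
  have hft := Fintype.ofFinite (Composite K F F')
  choose a ha hae using fun 𝔪 : Composite K F F' => Hk.bci (lft 𝔪) h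
  choose b hb hbe using fun 𝔪 : Composite K F F' => Hk.bci (rgt 𝔪) h'
  set ω : ∀ 𝔪 : Composite K F F', HeightOneSpectrum (𝓞 (Fld 𝔪)) → ℂ := fun 𝔪 z =>
    a 𝔪 z * conj (b 𝔪 z) with hω
  have hHk : ∀ 𝔪, Hk (ω 𝔪) := fun 𝔪 => (ha 𝔪).mul (hb 𝔪).conj
  -- the values at primes of degree one
  have hval : ∀ 𝔪 : Composite K F F', ∀ᶠ z : HeightOneSpectrum (𝓞 (Fld 𝔪)) in cofinite,
      D1 K z → a 𝔪 z = χ (res (lft 𝔪) z) ∧ b 𝔪 z = χ' (res (rgt 𝔪) z) := by
    intro 𝔪
    filter_upwards [hae 𝔪, hbe 𝔪] with z h1 h2 h3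
    exact ⟨h1 (D1_mid (lft 𝔪) (lft_alg 𝔪) h3), h2 (D1_mid (rgt 𝔪) (rgt_alg 𝔪) h3)⟩
  have hcc : ∀ z : ℂ, ‖z‖ = 1 → z * conj z = 1 := by
    intro z hz
    rw [Complex.mul_conj, Complex.normSq_eq_norm_sq, hz]
    simp
  -- the mean values
  have hmean : ∀ 𝔪 : Composite K F F', AvC nm 𝒰 (S (ω 𝔪) : HeightOneSpectrum (𝓞 K) → ℂ)
      (if Agree χ χ' 𝔪 then 1 else 0) := by
    intro 𝔪
    split_ifs with hA
    · have h1 : AvC nm 𝒰 (S (fun _ : HeightOneSpectrum (𝓞 (Fld 𝔪)) => (1 : ℂ)) :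
          HeightOneSpectrum (𝓞 K) → ℂ) 1 :=
        (AvC_dn hU (BdC.const 1)).1 (AvC.const (sysK hU) 1)
      refine AvC.congr_fin (sysK hU) (BdC_S (BdC.const 1)) (ne_fin ?_) h1
      filter_upwards [ev_kr (K := K) (hval 𝔪), ev_kr (K := K) hA] with v h2 h3
      unfold S
      refine Finset.sum_congr rfl fun g _ => ?_
      have h4 := D1_kr g
      obtain ⟨e1, e2⟩ := h2 g h4
      have e3 := h3 g h4
      rw [hω]
      simp only
      rw [e1, e2, e3, hcc _ (h'.1 _)]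
    · refine (AvC_dn hU (hHk 𝔪).bdc).1 ((hHk 𝔪).mean (fun h1 => hA ?_) (sysK hU))
      unfold Agree
      filter_upwards [h1, hval 𝔪] with z h2 h3 h4
      obtain ⟨e1, e2⟩ := h3 h4
      rw [← e1, ← e2]
      exact mul_conj_one ((hb 𝔪).1 z) h2
  have hsum := AvC.sum (sysK hU) Finset.univ (fun 𝔪 _ => BdC_S (K := K) (hHk 𝔪).bdc)
    fun 𝔪 _ => hmean 𝔪
  have hcard : (∑ 𝔪 : Composite K F F', if Agree χ χ' 𝔪 then (1 : ℂ) else 0) =
      (common K χ χ' : ℕ) := by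
    rw [Finset.sum_boole]
    unfold common
    rw [Nat.card_eq_fintype_card, Fintype.card_subtype]
  rw [hcard] at hsum
  refine AvC.congr_fin (sysK hU) (BdC.sum _ fun 𝔪 _ => BdC_S (K := K) (hHk 𝔪).bdc) (ne_fin ?_) hsum
  have hall : ∀ᶠ v : HeightOneSpectrum (𝓞 K) in cofinite, ∀ 𝔪 : Composite K F F',
      ∀ g : Hm K (Fld 𝔪) v, D1 K (kr g) → a 𝔪 (kr g) = χ (res (lft 𝔪) (kr g)) ∧
        b 𝔪 (kr g) = χ' (res (rgt 𝔪) (kr g)) := by
    rw [Filter.eventually_all]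
    exact fun 𝔪 => ev_kr (hval 𝔪)
  filter_upwards [hall, mackey (K := K) (F := F) (F' := F')] with v h1 h2
  have h3 := h2 χ (fun x => conj (χ' x))
  rw [S_conj] at h3
  rw [h3]
  refine Finset.sum_congr rfl fun 𝔪 _ => ?_
  unfold S
  refine Finset.sum_congr rfl fun g _ => ?_
  obtain ⟨e1, e2⟩ := h1 𝔪 g (D1_kr g)
  rw [hω]
  simp only
  rw [e1, e2]

end

end Pool.Agent.HS37.WT
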