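import Pool.Agent.HS37.WT.Comp

/-!
# Mackey's formula for the primes of degree one
-/

set_option autoImplicit false
set_option linter.unusedSectionVars false

open NumberField IsDedekindDomain Filter Topology TensorProduct

namespace Pool.Agent.HS37.WT

open Pool.Agent.H341R2 Pool.Agent.W540.BE Pool.Agent.HS37.HK

section
variable {K F F' : Type} [Field K] [NumberField K] [Field F] [NumberField F] [Field F']
  [NumberField F'] [Algebra K F] [Algebra K F']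

/-- the two restrictions of a homomorphism -/
noncomputable def Ph (v : HeightOneSpectrum (𝓞 K)) (p : Σ 𝔪 : Composite K F F', Hm K (Fld 𝔪) v) :
    Hm K F v × Hm K F' v := (p.2.comp (lfo p.1), p.2.comp (rgo p.1))

theorem exists_inv {v : HeightOneSpectrum (𝓞 K)} {c : 𝓞 K} (hc : c ∉ v.asIdeal) :
    ∃ u : 𝓞 K ⧸ v.asIdeal, u * algebraMap (𝓞 K) (𝓞 K ⧸ v.asIdeal) c = 1 := by
  have h := v.isMaximal
  obtain ⟨u, hu⟩ := Ideal.Quotient.exists_inv (I := v.asIdeal) (a := Ideal.Quotient.mk v.asIdeal c)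
    (fun h0 => hc (Ideal.Quotient.eq_zero_iff_mem.1 h0))
  exact ⟨u, by rw [mul_comm]; exact hu⟩

theorem Ph_bij {c : 𝓞 K} (hc : ∀ n : NN K F F', ∃ m : MM K F F', psi K F F' m = c • n)
    {v : HeightOneSpectrum (𝓞 K)} (hv : c ∉ v.asIdeal) :
    Function.Bijective (Ph (F := F) (F' := F') v) := by
  have hp := v.isPrime
  have hd : IsDomain (𝓞 K ⧸ v.asIdeal) := Ideal.Quotient.isDomain _
  obtain ⟨u, hu⟩ := exists_inv hv
  constructor
  · rintro ⟨𝔪, h⟩ ⟨𝔫, h'⟩ he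
    have he1 : h.comp (lfo 𝔪) = h'.comp (lfo 𝔫) := congrArg Prod.fst he
    have he2 : h.comp (rgo 𝔪) = h'.comp (rgo 𝔫) := congrArg Prod.snd he
    have h1 : (h.comp (Pi.evalAlgHom (𝓞 K) _ 𝔪)).comp (psi K F F') =
        (h'.comp (Pi.evalAlgHom (𝓞 K) _ 𝔫)).comp (psi K F F') := by
      apply Algebra.TensorProduct.ext'
      intro a b
      have k1 := DFunLike.congr_fun he1 a
      have k2 := DFunLike.congr_fun he2 b
      change h (ps1 𝔪 (a ⊗ₜ b)) = h' (ps1 𝔫 (a ⊗ₜ b))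
      have e1 : ps1 𝔪 (a ⊗ₜ b) = lfo 𝔪 a * rgo 𝔪 b :=
        Algebra.TensorProduct.productMap_apply_tmul _ _ _ _
      have e2 : ps1 𝔫 (a ⊗ₜ b) = lfo 𝔫 a * rgo 𝔫 b :=
        Algebra.TensorProduct.productMap_apply_tmul _ _ _ _
      rw [e1, e2, map_mul, map_mul]
      exact congrArg₂ (· * ·) k1 k2
    have h2 := ext_uniq (psi K F F') hc hu h1
    have h3 : ∀ b : NN K F F', h (b 𝔪) = h' (b 𝔫) := fun b => DFunLike.congr_fun h2 b
    have h4 : 𝔪 = 𝔫 := pi_hom_uniq (B := fun 𝔪 : Composite K F F' => 𝓞 (Fld 𝔪))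
      (g := h.toRingHom) (g' := h'.toRingHom) h3
    subst h4
    have h5 : h = h' := by
      classical
      ext a
      have := h3 (Function.update 0 𝔪 a)
      rwa [Function.update_self] at this
    rw [h5]
  · rintro ⟨x, y⟩
    obtain ⟨H, hH⟩ := ext_hom (psi K F F') psi_inj hc hu (Algebra.TensorProduct.productMap x y)
    obtain ⟨𝔪, h, hh⟩ := pi_hom (B := fun 𝔪 : Composite K F F' => 𝓞 (Fld 𝔪)) H
    refine ⟨⟨𝔪, h⟩, Prod.ext ?_ ?_⟩
    · change h.comp (lfo 𝔪) = x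
      ext a
      have h1 := DFunLike.congr_fun hH (a ⊗ₜ[𝓞 K] (1 : 𝓞 F'))
      have h2 : H (psi K F F' (a ⊗ₜ[𝓞 K] (1 : 𝓞 F'))) = h (ps1 𝔪 (a ⊗ₜ[𝓞 K] (1 : 𝓞 F'))) := hh _
      have e1 : ps1 𝔪 (a ⊗ₜ[𝓞 K] (1 : 𝓞 F')) = lfo 𝔪 a * rgo 𝔪 1 :=
        Algebra.TensorProduct.productMap_apply_tmul _ _ _ _
      have e3 : (Algebra.TensorProduct.productMap x y) (a ⊗ₜ[𝓞 K] (1 : 𝓞 F')) = x a * y 1 :=
        Algebra.TensorProduct.productMap_apply_tmul _ _ _ _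
      rw [map_one, mul_one] at e1 e3
      rw [e1] at h2
      rw [AlgHom.comp_apply, ← h2, ← e3]
      exact h1
    · change h.comp (rgo 𝔪) = y
      ext a
      have h1 := DFunLike.congr_fun hH ((1 : 𝓞 F) ⊗ₜ[𝓞 K] a)
      have h2 : H (psi K F F' ((1 : 𝓞 F) ⊗ₜ[𝓞 K] a)) = h (ps1 𝔪 ((1 : 𝓞 F) ⊗ₜ[𝓞 K] a)) := hh _
      have e1 : ps1 𝔪 ((1 : 𝓞 F) ⊗ₜ[𝓞 K] a) = lfo 𝔪 1 * rgo 𝔪 a :=
        Algebra.TensorProduct.productMap_apply_tmul _ _ _ _
      have e3 : (Algebra.TensorProduct.productMap x y) ((1 : 𝓞 F) ⊗ₜ[𝓞 K] a) = x 1 * y a :=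
        Algebra.TensorProduct.productMap_apply_tmul _ _ _ _
      rw [map_one, one_mul] at e1 e3
      rw [e1] at h2
      rw [AlgHom.comp_apply, ← h2, ← e3]
      exact h1

theorem kr_lfo {v : HeightOneSpectrum (𝓞 K)} (𝔪 : Composite K F F') (h : Hm K (Fld 𝔪) v) :
    kr (h.comp (lfo 𝔪)) = res (lft 𝔪) (kr h) := by
  apply HeightOneSpectrum.ext
  ext a
  rfl

theorem kr_rgo {v : HeightOneSpectrum (𝓞 K)} (𝔪 : Composite K F F') (h : Hm K (Fld 𝔪) v) :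
    kr (h.comp (rgo 𝔪)) = res (rgt 𝔪) (kr h) := by
  apply HeightOneSpectrum.ext
  ext a
  rfl

theorem ev_notmem {c : 𝓞 K} (hc : c ≠ 0) :
    ∀ᶠ v : HeightOneSpectrum (𝓞 K) in cofinite, c ∉ v.asIdeal := by
  have h1 : Ideal.span {c} ≠ ⊥ := by rwa [Ne, Ideal.span_singleton_eq_bot]
  filter_upwards [ev_coprime h1] with v hv hcv
  rw [coprime_iff] at hv
  exact hv (Ideal.dvd_iff_le.2 (by rwa [Ideal.span_singleton_le_iff_mem]))

/-- **Mackey's formula** -/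
theorem mackey [Fintype (Composite K F F')] : ∀ᶠ v : HeightOneSpectrum (𝓞 K) in cofinite,
    ∀ (f : HeightOneSpectrum (𝓞 F) → ℂ) (g : HeightOneSpectrum (𝓞 F') → ℂ),
      S f v * S g v = ∑ 𝔪 : Composite K F F',
        S (fun z : HeightOneSpectrum (𝓞 (Fld 𝔪)) => f (res (lft 𝔪) z) * g (res (rgt 𝔪) z)) v := by
  obtain ⟨c, hc0, hc⟩ := psi_unif (K := K) (F := F) (F' := F')
  filter_upwards [ev_notmem hc0] with v hv f g
  have hb := Ph_bij hc hv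
  unfold S
  rw [Finset.sum_mul_sum, ← Fintype.sum_prod_type' (fun x y => f (kr x) * g (kr y)),
    ← hb.sum_comp (fun p : Hm K F v × Hm K F' v => f (kr p.1) * g (kr p.2)), Fintype.sum_sigma]
  refine Finset.sum_congr rfl fun 𝔪 _ => Finset.sum_congr rfl fun h _ => ?_
  change f (kr (h.comp (lfo 𝔪))) * g (kr (h.comp (rgo 𝔪))) = _
  rw [kr_lfo, kr_rgo]

end

end Pool.Agent.HS37.WT
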