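import Pool.Agent.HS37.WT.Defs
import Pool.Agent.HS37.HK.Main

/-!
# Primes of degree one and homomorphisms to the residue fields
-/

set_option autoImplicit false
set_option linter.unusedSectionVars false

open NumberField IsDedekindDomain Filter Topology

namespace Pool.Agent.HS37.WT

open Pool.Agent.H341R2 Pool.Agent.W540.BE Pool.Agent.HS37.HK

section
variable {K F : Type} [Field K] [NumberField K] [Field F] [NumberField F] [Algebra K F]

variable (K) in
/-- the prime below -/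
abbrev dn (x : HeightOneSpectrum (𝓞 F)) : HeightOneSpectrum (𝓞 K) := res (algebraMap K F) x

theorem dn_as (x : HeightOneSpectrum (𝓞 F)) :
    (dn K x).asIdeal = x.asIdeal.comap (algebraMap (𝓞 K) (𝓞 F)) := rfl

instance liesOver (x : HeightOneSpectrum (𝓞 F)) : x.asIdeal.LiesOver (dn K x).asIdeal := ⟨rfl⟩

theorem nm_pow (x : HeightOneSpectrum (𝓞 F)) :
    nm x = nm (dn K x) ^ x.asIdeal.inertiaDeg (𝓞 K) :=
  (Ideal.absNorm_pow_inertiaDeg (dn K x).asIdeal x.asIdeal).symm

theorem deg_pos (x : HeightOneSpectrum (𝓞 F)) : 0 < x.asIdeal.inertiaDeg (𝓞 K) :=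
  Ideal.inertiaDeg_pos _ _

variable (K) in
/-- degree one over `K` -/
def D1 (x : HeightOneSpectrum (𝓞 F)) : Prop := nm x = nm (dn K x)

theorem D1_iff (x : HeightOneSpectrum (𝓞 F)) : D1 K x ↔ x.asIdeal.inertiaDeg (𝓞 K) = 1 := by
  unfold D1
  constructor
  · intro h
    rw [nm_pow (K := K) x] at h
    have h2 := two_le_nm (dn K x)
    exact Nat.pow_right_injective h2 (by simpa using h)
  · intro h
    rw [nm_pow (K := K) x, h, pow_one]

theorem not_D1 {x : HeightOneSpectrum (𝓞 F)} (h : ¬ D1 K x) : nm (dn K x) ^ 2 ≤ nm x := by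
  rw [D1_iff] at h
  have h1 := deg_pos (K := K) x
  rw [nm_pow (K := K) x]
  exact Nat.pow_le_pow_right (by have := two_le_nm (dn K x); omega) (by omega)

/-- the homomorphisms to the residue field -/
abbrev Hm (K F : Type) [Field K] [NumberField K] [Field F] [NumberField F] [Algebra K F]
    (v : HeightOneSpectrum (𝓞 K)) : Type := 𝓞 F →ₐ[𝓞 K] (𝓞 K ⧸ v.asIdeal)

variable {v : HeightOneSpectrum (𝓞 K)}

theorem hm_alg (h : Hm K F v) (a : 𝓞 K) :
    h (algebraMap (𝓞 K) (𝓞 F) a) = Ideal.Quotient.mk v.asIdeal a := by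
  rw [h.commutes]
  rfl

theorem hm_surj (h : Hm K F v) : Function.Surjective h := fun y => by
  obtain ⟨a, rfl⟩ := Ideal.Quotient.mk_surjective y
  exact ⟨_, hm_alg h a⟩

/-- the kernel of a homomorphism -/
def kr (h : Hm K F v) : HeightOneSpectrum (𝓞 F) where
  asIdeal := RingHom.ker h
  isPrime := by
    have := v.isPrime
    exact RingHom.ker_isPrime _
  ne_bot := by
    intro hb
    obtain ⟨a, ha, ha0⟩ := Submodule.exists_mem_ne_zero_of_ne_bot v.ne_bot
    have h1 : algebraMap (𝓞 K) (𝓞 F) a ∈ RingHom.ker h := by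
      rw [RingHom.mem_ker, hm_alg]
      exact Ideal.Quotient.eq_zero_iff_mem.2 ha
    rw [hb, Ideal.mem_bot] at h1
    exact ha0 ((FaithfulSMul.algebraMap_injective (𝓞 K) (𝓞 F)) (by rw [h1, map_zero]))

theorem mem_kr (h : Hm K F v) (s : 𝓞 F) : s ∈ (kr h).asIdeal ↔ h s = 0 := RingHom.mem_ker

theorem dn_kr (h : Hm K F v) : dn K (kr h) = v := by
  apply HeightOneSpectrum.ext
  ext a
  rw [dn_as, Ideal.mem_comap, mem_kr, hm_alg]
  exact Ideal.Quotient.eq_zero_iff_mem

theorem D1_kr (h : Hm K F v) : D1 K (kr h) := by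
  have h1 : Nat.card (𝓞 F ⧸ RingHom.ker h) = Nat.card (𝓞 K ⧸ v.asIdeal) :=
    Nat.card_congr (Ideal.quotientKerAlgEquivOfSurjective (hm_surj h)).toEquiv
  have h2 : nm (kr h) = Nat.card (𝓞 F ⧸ RingHom.ker h) := by
    unfold nm
    rw [Ideal.absNorm_apply, Submodule.cardQuot_apply]
    rfl
  have h3 : nm v = Nat.card (𝓞 K ⧸ v.asIdeal) := by
    unfold nm
    rw [Ideal.absNorm_apply, Submodule.cardQuot_apply]
  unfold D1
  rw [dn_kr, h2, h3, h1]

theorem kr_inj {h h' : Hm K F v} (he : kr h = kr h') : h = h' := by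
  ext s
  obtain ⟨a, ha⟩ := Ideal.Quotient.mk_surjective (h s)
  have h1 : s - algebraMap (𝓞 K) (𝓞 F) a ∈ (kr h).asIdeal := by
    rw [mem_kr, map_sub, hm_alg, ha, sub_self]
  rw [he, mem_kr, map_sub, hm_alg, ha, sub_eq_zero] at h1
  exact h1.symm

/-- a prime of degree one comes from a homomorphism -/
theorem exists_hm {x : HeightOneSpectrum (𝓞 F)} (hx : D1 K x) :
    ∃ h : Hm K F (dn K x), kr h = x := by
  have hm1 := x.isMaximal
  have hm2 := (dn K x).isMaximal
  let g : (𝓞 K ⧸ (dn K x).asIdeal) →ₐ[𝓞 K] (𝓞 F ⧸ x.asIdeal) :=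
    Ideal.quotientMapₐ x.asIdeal (Algebra.ofId (𝓞 K) (𝓞 F)) (le_refl _)
  have hg : ∀ a : 𝓞 K, g (Ideal.Quotient.mk _ a) = Ideal.Quotient.mk _ (algebraMap (𝓞 K) (𝓞 F) a) :=
    fun a => rfl
  have hinj : Function.Injective g := by
    rw [injective_iff_map_eq_zero]
    intro y hy
    obtain ⟨a, rfl⟩ := Ideal.Quotient.mk_surjective y
    rw [hg, Ideal.Quotient.eq_zero_iff_mem] at hy
    exact Ideal.Quotient.eq_zero_iff_mem.2 hy
  have hc : Nat.card (𝓞 F ⧸ x.asIdeal) = Nat.card (𝓞 K ⧸ (dn K x).asIdeal) := by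
    have h1 : nm x = nm (dn K x) := hx
    unfold nm at h1
    rwa [Ideal.absNorm_apply, Ideal.absNorm_apply, Submodule.cardQuot_apply,
      Submodule.cardQuot_apply] at h1
  have hf1 : Finite (𝓞 F ⧸ x.asIdeal) := Ideal.finiteQuotientOfFreeOfNeBot _ x.ne_bot
  have hf2 : Finite (𝓞 K ⧸ (dn K x).asIdeal) := Ideal.finiteQuotientOfFreeOfNeBot _ (dn K x).ne_bot
  have hbij : Function.Bijective g :=
    (Nat.bijective_iff_injective_and_card g).2 ⟨hinj, hc.symm⟩
  let e := AlgEquiv.ofBijective g hbij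
  refine ⟨e.symm.toAlgHom.comp (Ideal.Quotient.mkₐ (𝓞 K) x.asIdeal), ?_⟩
  apply HeightOneSpectrum.ext
  ext s
  rw [mem_kr]
  change e.symm (Ideal.Quotient.mk x.asIdeal s) = 0 ↔ _
  rw [map_eq_zero_iff e.symm e.symm.injective]
  exact Ideal.Quotient.eq_zero_iff_mem

/-- the primes above a prime -/
theorem card_above (v : HeightOneSpectrum (𝓞 K)) :
    {x : HeightOneSpectrum (𝓞 F) | dn K x = v}.Finite ∧
      {x : HeightOneSpectrum (𝓞 F) | dn K x = v}.ncard ≤ Module.finrank (𝓞 K) (𝓞 F) := by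
  classical
  have hv := v.isPrime
  have hfin : (v.asIdeal.primesOver (𝓞 F)).Finite := Algebra.QuasiFinite.finite_primesOver _
  have := hfin.fintype
  have h1 := Ideal.sum_ramification_inertia_eq_finrank v.asIdeal (𝓞 F)
  have h2 : Fintype.card (v.asIdeal.primesOver (𝓞 F)) ≤ Module.finrank (𝓞 K) (𝓞 F) := by
    rw [← h1, Fintype.card_eq_sum_ones]
    refine Finset.sum_le_sum fun q _ => ?_
    have hq : q.1.IsPrime := q.2.1
    exact Nat.one_le_iff_ne_zero.2 (mul_pos (Ideal.ramificationIdx_pos _ _)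
      (Ideal.inertiaDeg_pos _ _)).ne'
  have hmaps : Set.MapsTo (fun x : HeightOneSpectrum (𝓞 F) => x.asIdeal)
      {x : HeightOneSpectrum (𝓞 F) | dn K x = v} (v.asIdeal.primesOver (𝓞 F)) := by
    intro x hx
    rw [Set.mem_ofPred_eq] at hx
    exact ⟨x.isPrime, by rw [← hx]; exact liesOver x⟩
  have hinj : Set.InjOn (fun x : HeightOneSpectrum (𝓞 F) => x.asIdeal)
      {x : HeightOneSpectrum (𝓞 F) | dn K x = v} := fun x _ y _ h => HeightOneSpectrum.ext h
  refine ⟨Set.Finite.of_finite_image (hfin.subset (Set.image_subset_iff.2 hmaps)) hinj, ?_⟩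
  refine (Set.ncard_le_ncard_of_injOn _ hmaps hinj hfin).trans ?_
  rwa [Set.ncard_eq_toFinset_card', Set.toFinset_card]

instance hmFinite : Finite (Hm K F v) := by
  have h := (card_above (F := F) v).1
  have := h.to_subtype
  exact Finite.of_injective (fun h : Hm K F v =>
    (⟨kr h, dn_kr h⟩ : {x : HeightOneSpectrum (𝓞 F) | dn K x = v}))
    fun h h' he => kr_inj (congrArg Subtype.val he)

noncomputable instance hmFintype : Fintype (Hm K F v) := Fintype.ofFinite _

theorem card_hm (v : HeightOneSpectrum (𝓞 K)) :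
    Fintype.card (Hm K F v) ≤ Module.finrank (𝓞 K) (𝓞 F) := by
  have h := card_above (F := F) v
  have := h.1.to_subtype
  refine le_trans ?_ h.2
  rw [← Nat.card_eq_fintype_card, ← Nat.card_coe_set_eq]
  exact Nat.card_le_card_of_injective (fun h : Hm K F v =>
    (⟨kr h, dn_kr h⟩ : {x : HeightOneSpectrum (𝓞 F) | dn K x = v}))
    fun h h' he => kr_inj (congrArg Subtype.val he)

/-- the sum over the primes of degree one above `v` -/
noncomputable def S {A : Type*} [AddCommMonoid A] (f : HeightOneSpectrum (𝓞 F) → A)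
    (v : HeightOneSpectrum (𝓞 K)) : A := ∑ h : Hm K F v, f (kr h)

end

end Pool.Agent.HS37.WT
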