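import Pool.Agent.HS37.WT.Gram
import Pool.Agent.HS37.HT.Fin

/-!
# The sizes and the orders of the twisted `L`-functions
-/

set_option autoImplicit false
set_option linter.unusedSectionVars false

open NumberField IsDedekindDomain Filter Topology ComplexConjugate Polynomial

namespace Pool.Agent.HS37.WT

open Pool.Agent.H341R2 Pool.Agent.W540.BE Pool.Agent.HS37.HK
open Pool.Agent.HS37.HT (LFun IsHecke isHecke_hk ev_of_ultra)

section
variable {K F : Type} [Field K] [NumberField K] [Field F] [NumberField F] [Algebra K F]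

/-- the good primes -/
def Good (H : Motive K) (v : HeightOneSpectrum (𝓞 K)) : Prop :=
  Multiset.card (H.frob v) = H.rank ∧
    ∀ α ∈ H.frob v, ‖α‖ = (Ideal.absNorm v.asIdeal : ℝ) ^ ((H.weight : ℝ) / 2)

/-- the eigenvalues over `F` -/
noncomputable def fr (H : Motive K) (x : HeightOneSpectrum (𝓞 F)) : Multiset ℂ :=
  (H.frob (dn K x)).map fun α => α ^ x.asIdeal.inertiaDeg (𝓞 K)

open Classical in
/-- the normalised trace of Frobenius, over `F` -/
noncomputable def Tr (H : Motive K) (x : HeightOneSpectrum (𝓞 F)) : ℂ :=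
  if Good H (dn K x) then (fr H x).sum * (nm x : ℂ) ^ (-(((H.weight : ℝ) / 2 : ℝ) : ℂ)) else 0

theorem fr_norm (H : Motive K) {x : HeightOneSpectrum (𝓞 F)} (h : Good H (dn K x)) :
    ∀ β ∈ fr H x, ‖β‖ = (nm x : ℝ) ^ ((H.weight : ℝ) / 2) := by
  intro β hβ
  obtain ⟨α, hα, rfl⟩ := Multiset.mem_map.1 hβ
  rw [norm_pow, h.2 α hα, nm_pow (K := K) x]
  push_cast
  rw [← Real.rpow_natCast, ← Real.rpow_natCast, ← Real.rpow_mul (Nat.cast_nonneg _),
    ← Real.rpow_mul (Nat.cast_nonneg _), mul_comm]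
  rfl

theorem Tr_le (H : Motive K) (x : HeightOneSpectrum (𝓞 F)) : ‖Tr H x‖ ≤ H.rank := by
  classical
  by_cases h : Good H (dn K x)
  · have h1 := nrm_le (w := (H.weight : ℝ) / 2) (v := x) (s := fr H x)
      (fun α hα => (fr_norm H h α hα).le)
    have h2 := HK.norm_sum_le h1
    rw [nrm_sum, nrm_card] at h2
    unfold Tr
    rw [if_pos h]
    refine h2.trans ?_
    unfold fr
    rw [Multiset.card_map, h.1]
  · unfold Tr
    rw [if_neg h, norm_zero]
    exact Nat.cast_nonneg _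

/-- the normalised trace of Frobenius, over `K` -/
noncomputable def TK (H : Motive K) (v : HeightOneSpectrum (𝓞 K)) : ℂ :=
  open Classical in
  if Good H v then (H.frob v).sum * (nm v : ℂ) ^ (-(((H.weight : ℝ) / 2 : ℝ) : ℂ)) else 0

theorem TK_le (H : Motive K) (v : HeightOneSpectrum (𝓞 K)) : ‖TK H v‖ ≤ H.rank := by
  classical
  by_cases h : Good H v
  · have h1 := nrm_le (w := (H.weight : ℝ) / 2) (v := v) (s := H.frob v)
      (fun α hα => (h.2 α hα).le)
    have h2 := HK.norm_sum_le h1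
    rw [nrm_sum, nrm_card] at h2
    unfold TK
    rw [if_pos h]
    refine h2.trans ?_
    rw [h.1]
  · unfold TK
    rw [if_neg h, norm_zero]
    exact Nat.cast_nonneg _

theorem Tr_kr (H : Motive K) {v : HeightOneSpectrum (𝓞 K)} (g : Hm K F v) :
    Tr H (kr g) = TK H v := by
  classical
  have h1 := dn_kr g
  have h2 := (D1_iff (kr g)).1 (D1_kr g)
  have h3 : nm (kr g) = nm v := by
    have h4 : nm (kr g) = nm (dn K (kr g)) := D1_kr g
    rw [h4, h1]
  have h5 : fr H (kr g) = H.frob v := by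
    unfold fr
    rw [h2, h1]
    simp
  unfold Tr TK
  rw [h1, h3, h5]

/-- the sum over the primes above -/
theorem S_Tr (H : Motive K) (χ : HeightOneSpectrum (𝓞 F) → ℂ) (v : HeightOneSpectrum (𝓞 K)) :
    S (fun x => Tr H x * χ x) v = TK H v * S χ v := by
  unfold S
  rw [Finset.mul_sum]
  exact Finset.sum_congr rfl fun g _ => by simp only [Tr_kr]

theorem tendsto_dn : Tendsto (dn K : HeightOneSpectrum (𝓞 F) → HeightOneSpectrum (𝓞 K))
    cofinite cofinite :=
  Filter.Tendsto.cofinite_of_finite_preimage_singleton fun v => (card_above (F := F) v).1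

theorem ev_good (H : Motive K) : ∀ᶠ x : HeightOneSpectrum (𝓞 F) in cofinite, Good H (dn K x) :=
  tendsto_dn.eventually H.pure

theorem edge_eq (H : Motive K) : (((H.weight : ℝ) / 2 : ℝ) : ℂ) + 1 = edge H := by
  unfold edge
  push_cast
  ring

theorem euler_ef (H : Motive K) {χ χ' : HeightOneSpectrum (𝓞 F) → ℂ} (h' : Hk χ')
    (hae : AE χ' χ) {B : HeightOneSpectrum (𝓞 F) → ℂ[X]} (hB : IsEuler H χ B) :
    EF ((H.weight : ℝ) / 2) H.rank (fun x => (fr H x).map fun α => α * χ x) B := by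
  refine ⟨?_, fun v => ?_⟩
  · filter_upwards [ev_good (F := F) H, hB.1, hae] with x h1 h2 h3
    refine ⟨fun β hβ => ?_, ?_, fun z => ?_⟩
    · obtain ⟨α, hα, rfl⟩ := Multiset.mem_map.1 hβ
      rw [norm_mul, fr_norm H h1 α hα, ← h3, h'.1, mul_one]
    · rw [Multiset.card_map]
      unfold fr
      rw [Multiset.card_map, h1.1]
    · rw [h2 z]
      unfold fr
      rw [Multiset.map_map, Multiset.map_map]
      rfl
  · have h1 := hB.2 v
    rw [edge_eq]
    exact h1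

theorem coef_ae (H : Motive K) {χ χ' : HeightOneSpectrum (𝓞 F) → ℂ} (hae : AE χ' χ) :
    ∀ᶠ x in cofinite, Tr H x * χ' x = ((fr H x).map fun α => α * χ x).sum *
      (nm x : ℂ) ^ (-(((H.weight : ℝ) / 2 : ℝ) : ℂ)) := by
  classical
  filter_upwards [ev_good (F := F) H, hae] with x h1 h2
  unfold Tr
  rw [if_pos h1, h2, Multiset.sum_map_mul_right, Multiset.map_id']
  ring

theorem coef_bd (H : Motive K) {χ' : HeightOneSpectrum (𝓞 F) → ℂ} (h' : Hk χ')
    (x : HeightOneSpectrum (𝓞 F)) : ‖Tr H x * χ' x‖ ≤ H.rank := by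
  rw [norm_mul, h'.1, mul_one]
  exact Tr_le H x

theorem LFun_eq (B : HeightOneSpectrum (𝓞 F) → ℂ[X]) (s : ℂ) : LFun B s = LF B s := rfl

/-- the nonvanishing -/
theorem ne_zero (H : Motive K) {χ χ' : HeightOneSpectrum (𝓞 F) → ℂ} (h' : Hk χ')
    (hae : AE χ' χ) {B : HeightOneSpectrum (𝓞 F) → ℂ[X]} (hB : IsEuler H χ B) :
    ∀ᶠ ε : ℝ in 𝓝[>] 0, LFun B (edge H + ε) ≠ 0 := by
  obtain ⟨⟨C, hC⟩, -⟩ := ef_data (euler_ef H h' hae hB) (coef_bd H h') (coef_ae H hae)
  filter_upwards [hC] with ε h1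
  rw [edge_eq] at h1
  exact h1.1

/-- the size along an ultrafilter -/
theorem size_lim (H : Motive K) {χ χ' : HeightOneSpectrum (𝓞 F) → ℂ} (h' : Hk χ')
    (hae : AE χ' χ) {B : HeightOneSpectrum (𝓞 F) → ℂ[X]} (hB : IsEuler H χ B)
    {𝒰 : Ultrafilter ℝ} (hU : (𝒰 : Filter ℝ) ≤ 𝓝[>] 0) {y : ℝ}
    (hx : Av nm 𝒰 (fun v => (TK H v * S χ' v).re) y) :
    Tendsto (size H B) 𝒰 (𝓝 y) := by
  have hx' : Av nm 𝒰 (fun x => (Tr H x * χ' x).re) y := by
    refine (Av_dn (K := K) hU (BdC.re ⟨_, coef_bd H h'⟩)).2 (hx.congr (fun v => ?_) rfl)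
    rw [← S_Tr]
    unfold S
    rw [Complex.re_sum]
  obtain ⟨⟨C, hC⟩, -⟩ := ef_data (euler_ef H h' hae hB) (coef_bd H h') (coef_ae H hae)
  have hy : ∀ᶠ ε : ℝ in 𝓝[>] 0, |EP (nm (K := F)) ε fun x => (Tr H x * χ' x).re| ≤
      (2 * H.rank) * lam ε := by
    have h2 : ∀ᶠ ε : ℝ in 𝓝[>] 0, (EP (nm (K := F)) ε fun _ => 1) / lam ε < 2 :=
      EP_one.eventually_lt_const (by norm_num : (1 : ℝ) < 2)
    filter_upwards [h2, lam_tendsto.eventually_gt_atTop 0, self_mem_nhdsWithin] with ε h3 h4 h5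
    have hε : (0 : ℝ) < ε := h5
    rw [div_lt_iff₀ h4] at h3
    have hb : ∀ x : HeightOneSpectrum (𝓞 F), |(Tr H x * χ' x).re| ≤ H.rank := fun x =>
      (Complex.abs_re_le_norm _).trans (coef_bd H h' x)
    have e1 := EP_le (N := nm (K := F)) nsys hε hb (b := H.rank)
      fun v => (le_abs_self _).trans (hb v)
    have e2 := EP_le (N := nm (K := F)) nsys hε (φ := fun x => (-1) * (Tr H x * χ' x).re)
      (B := H.rank) (fun v => by rw [abs_mul, abs_neg, abs_one, one_mul]; exact hb v)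
      (b := H.rank) fun v => by
        have := neg_abs_le ((Tr H v * χ' v).re)
        have := hb v
        linarith
    rw [EP_const_mul] at e2
    have e3 : (H.rank : ℝ) * (EP (nm (K := F)) ε fun _ => 1) ≤ (2 * H.rank) * lam ε := by
      calc _ ≤ (H.rank : ℝ) * (2 * lam ε) :=
            mul_le_mul_of_nonneg_left h3.le (Nat.cast_nonneg _)
        _ = _ := by ring
    rw [abs_le]
    constructor <;> linarith
  have h1 := size_compare (y := fun ε => EP (nm (K := F)) ε fun x => (Tr H x * χ' x).re)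
    (ℓ := fun ε => Real.log ‖LF B ((((H.weight : ℝ) / 2 : ℝ) : ℂ) + 1 + ε)‖) hy
    (hC.mono fun ε h => h.2)
  have h2 := (h1.mono_left hU)
  have h3 := Tendsto.sub hx' h2
  rw [sub_zero] at h3
  refine h3.congr fun ε => ?_
  unfold size
  rw [LFun_eq, ← edge_eq]
  ring

theorem bd_TS (H : Motive K) {χ' : HeightOneSpectrum (𝓞 F) → ℂ} (h' : Hk χ') :
    BdC fun v : HeightOneSpectrum (𝓞 K) => TK H v * S χ' v :=
  BdC.mul ⟨_, TK_le H⟩ (BdC_S h'.bdc)

/-- a limit exists -/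
theorem exists_lim (H : Motive K) {χ' : HeightOneSpectrum (𝓞 F) → ℂ} (h' : Hk χ')
    {𝒰 : Ultrafilter ℝ} (hU : (𝒰 : Filter ℝ) ≤ 𝓝[>] 0) :
    ∃ y, Av nm 𝒰 (fun v : HeightOneSpectrum (𝓞 K) => (TK H v * S χ' v).re) y :=
  (sysK (K := K) hU).exists (bd_TS H h').re

/-- the mean value is minus the order -/
theorem order_mean (H : Motive K) {χ χ' : HeightOneSpectrum (𝓞 F) → ℂ} (h' : Hk χ')
    (hae : AE χ' χ) {m : ℤ} (hm : HasOrder H χ m) {𝒰 : Ultrafilter ℝ}
    (hU : (𝒰 : Filter ℝ) ≤ 𝓝[>] 0) :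
    AvC nm 𝒰 (fun v : HeightOneSpectrum (𝓞 K) => TK H v * S χ' v) (-m) := by
  obtain ⟨B, Λ, hB, hΛ, hL, hord⟩ := hm
  obtain ⟨-, h1⟩ := ef_data (euler_ef H h' hae hB) (coef_bd H h') (coef_ae H hae)
  rw [← edge_eq] at hΛ hL hord
  have h3 := h1 (sysK hU) hΛ hord (by
    have h2 : Tendsto (fun ε : ℝ => (((H.weight : ℝ) / 2 : ℝ) : ℂ) + 1 + ε) (𝓝[>] 0)
        (𝓝 ((((H.weight : ℝ) / 2 : ℝ) : ℂ) + 1)) := path_tendsto' _
    filter_upwards [h2.eventually hL, self_mem_nhdsWithin] with ε h3 h4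
    have hε : (0 : ℝ) < ε := h4
    refine h3 ?_
    simp only [Complex.add_re, Complex.ofReal_re, Complex.one_re]
    linarith)
  have h4 := (AvC_dn (K := K) hU ⟨_, coef_bd H h'⟩).1 h3
  exact h4.congr (fun v => S_Tr H χ' v) rfl

end

end Pool.Agent.HS37.WT
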