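import Pool.Agent.HS37.WT.Res

/-!
# Transfer of mean values from `F` to `K`
-/

set_option autoImplicit false
set_option linter.unusedSectionVars false

open NumberField IsDedekindDomain Filter Topology

namespace Pool.Agent.HS37.WT

open Pool.Agent.H341R2 Pool.Agent.W540.BE Pool.Agent.HS37.HK

section
variable {K F : Type} [Field K] [NumberField K] [Field F] [NumberField F] [Algebra K F]

variable (K F) in
/-- the degree -/
noncomputable def dg : ℕ := Module.finrank (𝓞 K) (𝓞 F)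

theorem S_norm {E : Type*} [SeminormedAddCommGroup E] {f : HeightOneSpectrum (𝓞 F) → E} {B : ℝ}
    (hf : ∀ x, ‖f x‖ ≤ B) (v : HeightOneSpectrum (𝓞 K)) : ‖S f v‖ ≤ dg K F * B := by
  have hB : 0 ≤ B := by
    obtain ⟨M, hM⟩ := Ideal.exists_maximal (𝓞 F)
    exact (norm_nonneg _).trans (hf ⟨M, hM.isPrime,
      Ring.ne_bot_of_isMaximal_of_not_isField hM (RingOfIntegers.not_isField F)⟩)
  unfold S
  refine (norm_sum_le _ _).trans ((Finset.sum_le_sum fun h _ => hf _).trans ?_)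
  rw [Finset.sum_const, nsmul_eq_mul, Finset.card_univ]
  have : (Fintype.card (Hm K F v) : ℝ) ≤ dg K F := by
    exact_mod_cast card_hm v
  exact mul_le_mul_of_nonneg_right this hB

theorem S_abs {f : HeightOneSpectrum (𝓞 F) → ℝ} {B : ℝ}
    (hf : ∀ x, |f x| ≤ B) (v : HeightOneSpectrum (𝓞 K)) : |S f v| ≤ dg K F * B :=
  S_norm (E := ℝ) hf v

/-- the primes of degree one -/
def mp : (Σ v : HeightOneSpectrum (𝓞 K), Hm K F v) → HeightOneSpectrum (𝓞 F) := fun p => kr p.2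

theorem mp_inj : Function.Injective (mp (K := K) (F := F)) := by
  rintro ⟨v, h⟩ ⟨v', h'⟩ he
  have he' : kr h = kr h' := he
  have hv : v = v' := by rw [← dn_kr h, he', dn_kr h']
  subst hv
  rw [kr_inj he']

theorem mem_range_mp {x : HeightOneSpectrum (𝓞 F)} (hx : D1 K x) :
    x ∈ Set.range (mp (K := K) (F := F)) := by
  obtain ⟨h, hh⟩ := exists_hm hx
  exact ⟨⟨_, h⟩, hh⟩

open Classical in
/-- the main term -/
theorem EP_main {f : HeightOneSpectrum (𝓞 F) → ℝ} {B : ℝ} (hf : ∀ x, |f x| ≤ B) {ε : ℝ}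
    (hε : 0 < ε) : (EP nm ε fun x => if D1 K x then f x else 0) =
      EP nm ε (S f : HeightOneSpectrum (𝓞 K) → ℝ) := by
  have hb : ∀ x, |if D1 K x then f x else 0| ≤ |B| := by
    intro x
    split_ifs
    · exact (hf x).trans (le_abs_self B)
    · rw [abs_zero]; exact abs_nonneg B
  have hs := summable_EP (N := nm (K := F)) nsys hε hb
  have h1 : Function.support (fun x : HeightOneSpectrum (𝓞 F) => (if D1 K x then f x else 0) *
      (nm x : ℝ) ^ (-(1 + ε))) ⊆ Set.range (mp (K := K) (F := F)) := by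
    intro x hx
    by_cases h : D1 K x
    · exact mem_range_mp h
    · exact absurd (by simp [h]) hx
  have h2 := mp_inj.tsum_eq h1
  have h3 : Summable fun p : Σ v : HeightOneSpectrum (𝓞 K), Hm K F v =>
      (if D1 K (mp p) then f (mp p) else 0) * (nm (mp p) : ℝ) ^ (-(1 + ε)) :=
    hs.comp_injective mp_inj
  unfold EP
  rw [← h2, h3.tsum_sigma' (fun v => Summable.of_finite)]
  refine tsum_congr fun v => ?_
  rw [tsum_fintype]
  unfold S
  rw [Finset.sum_mul]
  refine Finset.sum_congr rfl fun h _ => ?_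
  have h4 : D1 K (mp ⟨v, h⟩) := D1_kr h
  have h5 : nm (mp ⟨v, h⟩) = nm v := by
    have h6 : nm (mp ⟨v, h⟩) = nm (dn K (mp ⟨v, h⟩)) := h4
    rw [h6]
    congr 1
    exact dn_kr h
  rw [if_pos h4, h5]
  rfl

variable (K F) in
/-- the primes of higher degree -/
theorem summable_high : Summable fun x : HeightOneSpectrum (𝓞 F) => (nm (dn K x) : ℝ) ^ (-2 : ℝ) := by
  have h0 : ∀ x : HeightOneSpectrum (𝓞 F), 0 ≤ (nm (dn K x) : ℝ) ^ (-2 : ℝ) := fun x => by positivity
  rw [← (Equiv.sigmaFiberEquiv (dn K : HeightOneSpectrum (𝓞 F) → HeightOneSpectrum (𝓞 K))).summable_iff]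
  rw [summable_sigma_of_nonneg (f := (fun x : HeightOneSpectrum (𝓞 F) =>
    (nm (dn K x) : ℝ) ^ (-2 : ℝ)) ∘ (Equiv.sigmaFiberEquiv (dn K))) (fun p => h0 _)]
  have hfin : ∀ v : HeightOneSpectrum (𝓞 K), Finite {x : HeightOneSpectrum (𝓞 F) // dn K x = v} :=
    fun v => (card_above v).1.to_subtype
  refine ⟨fun v => ?_, ?_⟩
  · have := hfin v
    exact Summable.of_finite
  · refine Summable.of_nonneg_of_le (fun v => tsum_nonneg fun _ => h0 _) (fun v => ?_)
      ((nsys.summable (-2 : ℝ) (by norm_num)).mul_left (dg K F : ℝ))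
    have := hfin v
    have hft := Fintype.ofFinite {x : HeightOneSpectrum (𝓞 F) // dn K x = v}
    rw [tsum_fintype]
    have h1 : ∀ y : {x : HeightOneSpectrum (𝓞 F) // dn K x = v},
        ((fun x : HeightOneSpectrum (𝓞 F) => (nm (dn K x) : ℝ) ^ (-2 : ℝ)) ∘
          (Equiv.sigmaFiberEquiv (dn K))) ⟨v, y⟩ = (nm v : ℝ) ^ (-2 : ℝ) := by
      intro y
      simp only [Function.comp_apply, Equiv.sigmaFiberEquiv_apply]
      rw [y.2]
    rw [Finset.sum_congr rfl fun y _ => h1 y, Finset.sum_const, nsmul_eq_mul, Finset.card_univ]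
    refine mul_le_mul_of_nonneg_right ?_ (by positivity)
    have h2 := (card_above (F := F) v).2
    rw [← Nat.card_coe_set_eq] at h2
    rw [← Nat.card_eq_fintype_card]
    exact_mod_cast h2

open Classical in
/-- the primes of higher degree contribute a bounded amount -/
theorem EP_high {f : HeightOneSpectrum (𝓞 F) → ℝ} {B : ℝ} (hf : ∀ x, |f x| ≤ B) :
    ∃ C : ℝ, ∀ ε : ℝ, 0 < ε → |EP nm ε fun x => if D1 K x then 0 else f x| ≤ C := by
  refine ⟨∑' x : HeightOneSpectrum (𝓞 F), |B| * (nm (dn K x) : ℝ) ^ (-2 : ℝ), fun ε hε => ?_⟩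
  unfold EP
  have hs := (summable_high K F).mul_left |B|
  have hle : ∀ x : HeightOneSpectrum (𝓞 F), ‖(if D1 K x then 0 else f x) *
      (nm x : ℝ) ^ (-(1 + ε))‖ ≤ |B| * (nm (dn K x) : ℝ) ^ (-2 : ℝ) := by
    intro x
    by_cases h : D1 K x
    · rw [if_pos h, zero_mul, norm_zero]
      positivity
    · rw [if_neg h, Real.norm_eq_abs, abs_mul, abs_of_nonneg (wP_nonneg ε x)]
      refine mul_le_mul ((hf x).trans (le_abs_self B)) ?_ (wP_nonneg ε x) (abs_nonneg B)
      have h1 := not_D1 h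
      have h2 : ((nm (dn K x) : ℝ)) ^ (2 : ℕ) ≤ nm x := by exact_mod_cast h1
      have h3 : (2 : ℝ) ≤ nm (dn K x) := by exact_mod_cast two_le_nm (dn K x)
      have h4 : (1 : ℝ) ≤ nm x := by
        have := two_le_nm x
        exact_mod_cast (by omega : 1 ≤ nm x)
      calc (nm x : ℝ) ^ (-(1 + ε)) ≤ (nm x : ℝ) ^ (-1 : ℝ) :=
            Real.rpow_le_rpow_of_exponent_le h4 (by linarith)
        _ = (nm x : ℝ)⁻¹ := Real.rpow_neg_one _
        _ ≤ (((nm (dn K x) : ℝ)) ^ (2 : ℕ))⁻¹ := inv_anti₀ (by positivity) h2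
        _ = (nm (dn K x) : ℝ) ^ (-2 : ℝ) := by
            rw [Real.rpow_neg (by linarith), Real.rpow_two]
  have hs1 := Summable.of_nonneg_of_le (fun x => norm_nonneg _) hle hs
  have h5 := (norm_tsum_le_tsum_norm hs1).trans (Summable.tsum_le_tsum hle hs1 hs)
  rwa [Real.norm_eq_abs] at h5

/-- transfer -/
theorem EP_dn {f : HeightOneSpectrum (𝓞 F) → ℝ} {B : ℝ} (hf : ∀ x, |f x| ≤ B) :
    ∃ C : ℝ, ∀ ε : ℝ, 0 < ε →
      |EP nm ε f - EP nm ε (S f : HeightOneSpectrum (𝓞 K) → ℝ)| ≤ C := by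
  classical
  obtain ⟨C, hC⟩ := EP_high (K := K) hf
  refine ⟨C, fun ε hε => ?_⟩
  rw [← EP_main hf hε]
  have h1 : ∀ x : HeightOneSpectrum (𝓞 F), |if D1 K x then f x else 0| ≤ |B| := by
    intro x
    split_ifs
    · exact (hf x).trans (le_abs_self B)
    · rw [abs_zero]; exact abs_nonneg B
  have h2 : ∀ x : HeightOneSpectrum (𝓞 F), |if D1 K x then 0 else f x| ≤ |B| := by
    intro x
    split_ifs
    · rw [abs_zero]; exact abs_nonneg B
    · exact (hf x).trans (le_abs_self B)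
  have h3 := EP_add (N := nm (K := F)) nsys hε h1 h2
  have h4 : (fun x : HeightOneSpectrum (𝓞 F) => (if D1 K x then f x else 0) +
      if D1 K x then 0 else f x) = f := by
    funext x
    split_ifs <;> simp
  rw [h4] at h3
  rw [h3, add_sub_cancel_left]
  exact hC ε hε

variable {𝒰 : Ultrafilter ℝ}

theorem lim_zero {g : ℝ → ℝ} {C : ℝ} (h : ∀ ε : ℝ, 0 < ε → |g ε| ≤ C)
    (hU : (𝒰 : Filter ℝ) ≤ 𝓝[>] 0) : Tendsto (fun ε => g ε / lam ε) 𝒰 (𝓝 0) := by
  have hlim : Tendsto (fun ε : ℝ => C / lam ε) (𝓝[>] 0) (𝓝 0) :=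
    tendsto_const_nhds.div_atTop lam_tendsto
  refine (squeeze_zero_norm' ?_ hlim).mono_left hU
  filter_upwards [self_mem_nhdsWithin, lam_tendsto.eventually_gt_atTop 0] with ε h1 h2
  rw [Real.norm_eq_abs, abs_div, abs_of_pos h2]
  exact div_le_div_of_nonneg_right (h ε h1) h2.le

theorem Av_dn (hU : (𝒰 : Filter ℝ) ≤ 𝓝[>] 0) {f : HeightOneSpectrum (𝓞 F) → ℝ} (hf : Bd f) {y : ℝ} :
    Av nm 𝒰 f y ↔ Av nm 𝒰 (S f : HeightOneSpectrum (𝓞 K) → ℝ) y := by
  obtain ⟨B, hB⟩ := hf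
  obtain ⟨C, hC⟩ := EP_dn (K := K) hB
  have h1 := lim_zero hC hU
  unfold Av
  constructor
  · intro h
    have h2 := h.sub h1
    rw [sub_zero] at h2
    exact h2.congr fun ε => by ring
  · intro h
    have h2 := h.add h1
    rw [add_zero] at h2
    exact h2.congr fun ε => by ring

theorem AvC_dn (hU : (𝒰 : Filter ℝ) ≤ 𝓝[>] 0) {f : HeightOneSpectrum (𝓞 F) → ℂ} (hf : BdC f)
    {y : ℂ} : AvC nm 𝒰 f y ↔ AvC nm 𝒰 (S f : HeightOneSpectrum (𝓞 K) → ℂ) y := by
  unfold AvC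
  rw [Av_dn (K := K) hU hf.re, Av_dn (K := K) hU hf.im]
  have h1 : (fun p : HeightOneSpectrum (𝓞 K) => (S f p).re) = S fun x => (f x).re := by
    funext v
    unfold S
    rw [Complex.re_sum]
  have h2 : (fun p : HeightOneSpectrum (𝓞 K) => (S f p).im) = S fun x => (f x).im := by
    funext v
    unfold S
    rw [Complex.im_sum]
  rw [h1, h2]

end

end Pool.Agent.HS37.WT
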